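import Pool.Agent.J4H61.QB.Stm2

set_option autoImplicit false

/-! Finer statements for the upper bound of the norm hierarchy of random quantum channels. -/

open Matrix MeasureTheory
open scoped ComplexOrder

namespace Pool.Agent.J4H61.QB
open Pool.Agent.V11219.MomentOp

/-- (KRS) a map with Kraus operators satisfies the Kadison-Schwarz inequality -/
def S_KRS : Prop := ∀ (d t n : ℕ) (K : (Fin t → Fin n) → MatT d t),
  ∑ x, (K x)ᴴ * K x = 1 → ∀ A : MatT d t →ₗ[ℂ] MatT d t,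
    (∀ X : MatT d t, A X = ∑ x, K x * X * (K x)ᴴ) → KS A

/-- (KRD) Kraus operators for the tensor power of a channel -/
def S_KRD : Prop := ∀ (t d dE : ℕ) (ψ : Fin dE → ℂ), ∑ x, ‖ψ x‖ ^ 2 = 1 →
  ∀ V : Matrix.unitaryGroup (Fin d × Fin dE) ℂ, ∃ K : (Fin t → Fin dE) → MatT d t,
    ∑ x, (K x)ᴴ * K x = 1 ∧ ∀ X : MatT d t,
      tensorPow t (dilated (d := d) ψ (V : Matrix (Fin d × Fin dE) (Fin d × Fin dE) ℂ)) X =
        ∑ x, K x * X * (K x)ᴴ

/-- (KSA) the Kadison-Schwarz inequality passes to the mean -/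
def S_KSA : Prop := ∀ (t d dE : ℕ) (ψ : Fin dE → ℂ),
  (∀ V : Matrix.unitaryGroup (Fin d × Fin dE) ℂ,
    KS (tensorPow t (dilated (d := d) ψ (V : Matrix (Fin d × Fin dE) (Fin d × Fin dE) ℂ)))) →
  KS (cOp t d dE ψ)

end Pool.Agent.J4H61.QB
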