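import Pool.Agent.J4H61.QB.Main
import Pool.Agent.J4H16.QB.Hsn
import Pool.Agent.J4H21.QB.Fpw
import Pool.Agent.J4H3.QB.Ksa
import Pool.Agent.J4H57.QB.Ez
import Pool.Agent.J4H79.QB.Ae
import Pool.Agent.J4H79.QB.Inv
import Pool.Agent.J4H80.QB.Krs
import Pool.Agent.J4H80.QB.Haar
import Pool.Agent.J4H89.QB.Avg
import Pool.Agent.J4H89.QB.Qub
import Pool.Agent.J4H91.QB.Krd
import Pool.Agent.J4H97.QB.Num

set_option autoImplicit false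

/-! The upper bound of the norm hierarchy: all pieces. -/

open Matrix MeasureTheory
open scoped ComplexOrder

namespace Pool.Agent.J4H61.QB
open Pool.Agent.V11219.MomentOp

theorem red' (d t : ℕ)
    (hF : ∀ X : Mat d, X.PosSemidef → X.trace = d → F d t X ≤ F d t 1)
    (k dE : ℕ) (ψ : Fin dE → ℂ) (hk : 1 ≤ k) (hψ : ∑ x, ‖ψ x‖ ^ 2 = 1) :
    N t k d dE ψ ≤ hsNormSq (haarOp d t) :=
  red (Pool.Agent.J4H89.QB.t_KS1 Pool.Agent.J4H80.QB.t_KRS Pool.Agent.J4H91.QB.t_KRD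
      Pool.Agent.J4H3.QB.t_KSA) Pool.Agent.J4H80.QB.t_KSP Pool.Agent.J4H79.QB.t_INV
    (Pool.Agent.J4H89.QB.t_NRM Pool.Agent.J4H16.QB.t_HSN Pool.Agent.J4H79.QB.t_AE
      Pool.Agent.J4H16.QB.t_KST Pool.Agent.J4H57.QB.t_EZ)
    (Pool.Agent.J4H89.QB.t_AVG Pool.Agent.J4H21.QB.t_PWC Pool.Agent.J4H91.QB.t_DPS)
    Pool.Agent.J4H21.QB.t_FPW Pool.Agent.J4H80.QB.t_HAAR d t hF k dE ψ hk hψ

theorem qub (t k dE : ℕ) (ψ : Fin dE → ℂ) (hk : 1 ≤ k) (hψ : ∑ x, ‖ψ x‖ ^ 2 = 1) :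
    N t k 2 dE ψ ≤ hsNormSq (haarOp 2 t) :=
  red' 2 t (fun X hX hT => Pool.Agent.J4H89.QB.t_QUB Pool.Agent.J4H97.QB.t_NUM t X hX
    (by simpa using hT)) k dE ψ hk hψ

/-- the full bound, from the inequality on `U(d)` -/
theorem full (hALL : S_ALL) (t k d dE : ℕ) (ψ : Fin dE → ℂ) (hk : 1 ≤ k)
    (hψ : ∑ x, ‖ψ x‖ ^ 2 = 1) : N t k d dE ψ ≤ hsNormSq (haarOp d t) :=
  red' d t (hALL d t) k dE ψ hk hψ

end Pool.Agent.J4H61.QB
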