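import Pool.Agent.J4H61.QB.Stm4

/-!
# Project QB (helper61), piece C2P: the second-order equation for `fp` (helper80)
-/

set_option autoImplicit false
set_option linter.unusedVariables false

open Matrix MeasureTheory
open scoped ComplexOrder

namespace Pool.Agent.J4H61.QB.C2
open Pool.Agent.V11219.MomentOp
open Pool.Agent.J4H61.QB (fp S_SD S_C2P)

/-- the coefficient of `X` is a combination of finitely many values -/
lemma weights (N : ℕ) : ∃ (w v : ℕ → ℂ), ∀ p : Polynomial ℂ, p.natDegree < N →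
    p.coeff 1 = ∑ i ∈ Finset.range N, w i * p.eval (v i) := by
  refine ⟨fun i => (Lagrange.basis (Finset.range N) (fun k : ℕ => (k : ℂ)) i).coeff 1, fun k => (k : ℂ),
    fun p hp => ?_⟩
  have hd : p.degree < (Finset.range N).card := by
    rw [Finset.card_range]
    exact Polynomial.degree_le_natDegree.trans_lt (by exact_mod_cast hp)
  have h := Lagrange.eq_interpolate (s := Finset.range N) (v := fun k : ℕ => (k : ℂ))
    (fun a _ b _ h => by simpa using h) hd
  conv_lhs => rw [h]
  rw [Lagrange.interpolate_apply, Polynomial.finsetSum_coeff]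
  refine Finset.sum_congr rfl fun i _ => ?_
  rw [Polynomial.coeff_C_mul, mul_comm]

section

variable {d : ℕ}

lemma intble {f : (Matrix.unitaryGroup (Fin d) ℂ) → ℂ} (hf : Continuous f) : Integrable f (haarU (Fin d)) :=
  hf.integrable_of_hasCompactSupport (HasCompactSupport.of_compactSpace _)

lemma pol (N : ℕ) {P Q : (Matrix.unitaryGroup (Fin d) ℂ) → Polynomial ℂ} (hP : ∀ U, (P U).natDegree < N) (hQ : ∀ U, (Q U).natDegree < N)
    (hPc : ∀ e : ℂ, Continuous fun U => (P U).eval e) (hQc : ∀ e : ℂ, Continuous fun U => (Q U).eval e)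
    (h : ∀ e : ℂ, ∫ U, (P U).eval e ∂(haarU (Fin d)) = ∫ U, (Q U).eval e ∂(haarU (Fin d))) :
    ∫ U, (P U).coeff 1 ∂(haarU (Fin d)) = ∫ U, (Q U).coeff 1 ∂(haarU (Fin d)) := by
  obtain ⟨w, v, hw⟩ := weights N
  simp_rw [hw _ (hP _), hw _ (hQ _)]
  rw [integral_finsetSum _ (fun i _ => (intble (hPc (v i))).const_mul _),
    integral_finsetSum _ (fun i _ => (intble (hQc (v i))).const_mul _)]
  refine Finset.sum_congr rfl fun i _ => ?_
  rw [integral_const_mul, integral_const_mul, h]

lemma coeff_one (p : Polynomial ℂ) : p.coeff 1 = (Polynomial.derivative p).eval 0 := by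
  rw [← Polynomial.coeff_zero_eq_eval_zero, Polynomial.coeff_derivative]
  simp

lemma deg_lin (a b : ℂ) : (Polynomial.C b * Polynomial.X + Polynomial.C a).natDegree ≤ 1 :=
  Polynomial.natDegree_linear_le

/-- the polarised equation -/
lemma polar (t : ℕ) {φ φ' a b e f : (Matrix.unitaryGroup (Fin d) ℂ) → ℂ} (hφ : Continuous φ) (hφ' : Continuous φ') (ha : Continuous a)
    (hb : Continuous b) (he : Continuous e) (hf : Continuous f)
    (h : ∀ s : ℂ, ∫ U, φ U * (a U + s * b U) ^ (t + 1) ∂(haarU (Fin d)) =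
      ∫ U, φ' U * ((a U + s * b U) ^ t * (e U + s * f U)) ∂(haarU (Fin d))) :
    ∫ U, φ U * ((t + 1) * a U ^ t * b U) ∂(haarU (Fin d)) =
      ∫ U, φ' U * (t * a U ^ (t - 1) * b U * e U + a U ^ t * f U) ∂(haarU (Fin d)) := by
  have key := pol (d := d) (t + 3)
    (P := fun U => Polynomial.C (φ U) * (Polynomial.C (b U) * Polynomial.X + Polynomial.C (a U)) ^ (t + 1))
    (Q := fun U => Polynomial.C (φ' U) * ((Polynomial.C (b U) * Polynomial.X + Polynomial.C (a U)) ^ t *
      (Polynomial.C (f U) * Polynomial.X + Polynomial.C (e U)))) ?_ ?_ ?_ ?_ ?_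
  · convert key using 1
    · refine integral_congr_ae (Filter.Eventually.of_forall fun U => ?_)
      simp only
      rw [Polynomial.coeff_C_mul, coeff_one, Polynomial.derivative_pow]
      simp
    · refine integral_congr_ae (Filter.Eventually.of_forall fun U => ?_)
      simp only
      rw [Polynomial.coeff_C_mul, coeff_one, Polynomial.derivative_mul, Polynomial.derivative_pow]
      simp
  · intro U
    have h1 := Polynomial.natDegree_pow_le (p := Polynomial.C (b U) * Polynomial.X + Polynomial.C (a U)) (n := t + 1)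
    have h2 := Polynomial.natDegree_C_mul_le (φ U)
      ((Polynomial.C (b U) * Polynomial.X + Polynomial.C (a U)) ^ (t + 1))
    have h3 := Nat.mul_le_mul_left (t + 1) (deg_lin (a U) (b U))
    show (Polynomial.C (φ U) * (Polynomial.C (b U) * Polynomial.X + Polynomial.C (a U)) ^ (t + 1)).natDegree < t + 3
    omega
  · intro U
    have h1 := Polynomial.natDegree_pow_le (p := Polynomial.C (b U) * Polynomial.X + Polynomial.C (a U)) (n := t)
    have h2 := Polynomial.natDegree_C_mul_le (φ' U)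
      ((Polynomial.C (b U) * Polynomial.X + Polynomial.C (a U)) ^ t *
      (Polynomial.C (f U) * Polynomial.X + Polynomial.C (e U)))
    have h3 := Nat.mul_le_mul_left t (deg_lin (a U) (b U))
    have h4 := Polynomial.natDegree_mul_le (p := (Polynomial.C (b U) * Polynomial.X + Polynomial.C (a U)) ^ t)
      (q := Polynomial.C (f U) * Polynomial.X + Polynomial.C (e U))
    have h5 := deg_lin (e U) (f U)
    show (Polynomial.C (φ' U) * ((Polynomial.C (b U) * Polynomial.X + Polynomial.C (a U)) ^ t *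
      (Polynomial.C (f U) * Polynomial.X + Polynomial.C (e U)))).natDegree < t + 3
    omega
  · intro s
    simp only [Polynomial.eval_mul, Polynomial.eval_pow, Polynomial.eval_add, Polynomial.eval_C,
      Polynomial.eval_X]
    fun_prop
  · intro s
    simp only [Polynomial.eval_mul, Polynomial.eval_pow, Polynomial.eval_add, Polynomial.eval_C,
      Polynomial.eval_X]
    fun_prop
  · intro s
    have h0 := h s
    convert h0 using 1
    · refine integral_congr_ae (Filter.Eventually.of_forall fun U => ?_)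
      simp only [Polynomial.eval_mul, Polynomial.eval_pow, Polynomial.eval_add, Polynomial.eval_C,
        Polynomial.eval_X]
      ring
    · refine integral_congr_ae (Filter.Eventually.of_forall fun U => ?_)
      simp only [Polynomial.eval_mul, Polynomial.eval_pow, Polynomial.eval_add, Polynomial.eval_C,
        Polynomial.eval_X]
      ring

lemma cont_val : Continuous fun U : (Matrix.unitaryGroup (Fin d) ℂ) => (U : Mat d) := continuous_subtype_val

lemma cont_tr (M : Mat d) : Continuous fun U : (Matrix.unitaryGroup (Fin d) ℂ) => Matrix.trace (M * (U : Mat d)ᴴ) :=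
  (continuous_const.matrix_mul cont_val.matrix_conjTranspose).matrix_trace

lemma cont_tr' (M : Mat d) : Continuous fun U : (Matrix.unitaryGroup (Fin d) ℂ) => Matrix.trace (M * (U : Mat d)) :=
  (continuous_const.matrix_mul cont_val).matrix_trace

lemma cont_t : Continuous fun U : (Matrix.unitaryGroup (Fin d) ℂ) => Matrix.trace (U : Mat d) := cont_val.matrix_trace

/-- the two polarised Schwinger-Dyson equations -/
lemma PLR (hSD : S_SD) (t : ℕ) (K B C : Mat d) :
    (∫ U : (Matrix.unitaryGroup (Fin d) ℂ), (Matrix.trace (U : Mat d)) ^ t * Matrix.trace (K * (U : Mat d)) *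
        ((t + 1) * Matrix.trace (B * (U : Mat d)ᴴ) ^ t * Matrix.trace (C * (U : Mat d)ᴴ)) ∂(haarU (Fin d)) =
      ∫ U : (Matrix.unitaryGroup (Fin d) ℂ), (Matrix.trace (U : Mat d)) ^ (t + 1) *
        (t * Matrix.trace (B * (U : Mat d)ᴴ) ^ (t - 1) * Matrix.trace (C * (U : Mat d)ᴴ) *
          Matrix.trace (K * B * (U : Mat d)ᴴ) +
          Matrix.trace (B * (U : Mat d)ᴴ) ^ t * Matrix.trace (K * C * (U : Mat d)ᴴ)) ∂(haarU (Fin d))) ∧
    (∫ U : (Matrix.unitaryGroup (Fin d) ℂ), (Matrix.trace (U : Mat d)) ^ t * Matrix.trace (K * (U : Mat d)) *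
        ((t + 1) * Matrix.trace (B * (U : Mat d)ᴴ) ^ t * Matrix.trace (C * (U : Mat d)ᴴ)) ∂(haarU (Fin d)) =
      ∫ U : (Matrix.unitaryGroup (Fin d) ℂ), (Matrix.trace (U : Mat d)) ^ (t + 1) *
        (t * Matrix.trace (B * (U : Mat d)ᴴ) ^ (t - 1) * Matrix.trace (C * (U : Mat d)ᴴ) *
          Matrix.trace (B * K * (U : Mat d)ᴴ) +
          Matrix.trace (B * (U : Mat d)ᴴ) ^ t * Matrix.trace (C * K * (U : Mat d)ᴴ)) ∂(haarU (Fin d))) := by
  have e1 : ∀ (s : ℂ) (M : Mat d), Matrix.trace ((B + s • C) * M) = Matrix.trace (B * M) + s * Matrix.trace (C * M) := by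
    intro s M
    rw [Matrix.add_mul, Matrix.trace_add, Matrix.smul_mul, Matrix.trace_smul, smul_eq_mul]
  constructor
  · refine polar (d := d) t ((cont_t.pow t).mul (cont_tr' K)) (cont_t.pow (t + 1)) (cont_tr B) (cont_tr C)
      (cont_tr (K * B)) (cont_tr (K * C)) fun s => ?_
    have h := (hSD d t K (B + s • C)).1
    simp only [e1] at h
    have e2 : ∀ M : Mat d, Matrix.trace (K * (B + s • C) * M) =
        Matrix.trace (K * B * M) + s * Matrix.trace (K * C * M) := by
      intro M
      rw [Matrix.mul_add, Matrix.add_mul, Matrix.trace_add, Matrix.mul_smul, Matrix.smul_mul, Matrix.trace_smul,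
        smul_eq_mul]
    simp only [e2] at h
    exact h
  · refine polar (d := d) t ((cont_t.pow t).mul (cont_tr' K)) (cont_t.pow (t + 1)) (cont_tr B) (cont_tr C)
      (cont_tr (B * K)) (cont_tr (C * K)) fun s => ?_
    have h := (hSD d t K (B + s • C)).2
    simp only [e1] at h
    have e2 : ∀ M : Mat d, Matrix.trace ((B + s • C) * K * M) =
        Matrix.trace (B * K * M) + s * Matrix.trace (C * K * M) := by
      intro M
      rw [Matrix.add_mul, Matrix.add_mul, Matrix.trace_add, Matrix.smul_mul, Matrix.smul_mul, Matrix.trace_smul,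
        smul_eq_mul]
    simp only [e2] at h
    exact h

/-- the exponent -/
noncomputable def ex (m : Fin d → ℕ) : Fin d →₀ ℕ := Finsupp.equivFunOnFinite.symm m

/-- the polynomial `∫ φ (∑ x_i conj u_ii)^t` -/
noncomputable def mp (φ : (Matrix.unitaryGroup (Fin d) ℂ) → ℂ) (t : ℕ) : MvPolynomial (Fin d) ℂ :=
  ∑ m ∈ Finset.piAntidiag Finset.univ t,
    MvPolynomial.monomial (Finsupp.equivFunOnFinite.symm m)
      ((t.factorial : ℂ) / (∏ i, ((m i).factorial : ℂ)) *
        ∫ U : (Matrix.unitaryGroup (Fin d) ℂ), φ U * ∏ i, (star ((U : Mat d) i i)) ^ (m i) ∂(haarU (Fin d)))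

/-- the linear form -/
noncomputable def Lf (U : (Matrix.unitaryGroup (Fin d) ℂ)) : MvPolynomial (Fin d) ℂ :=
  ∑ i, MvPolynomial.C (star ((U : Mat d) i i)) * MvPolynomial.X i

lemma Lf_pow (U : (Matrix.unitaryGroup (Fin d) ℂ)) (t : ℕ) : Lf U ^ t = ∑ m ∈ Finset.piAntidiag Finset.univ t,
    MvPolynomial.monomial (Finsupp.equivFunOnFinite.symm m)
      ((t.factorial : ℂ) / (∏ i, ((m i).factorial : ℂ)) * ∏ i, (star ((U : Mat d) i i)) ^ (m i)) := by
  unfold Lf
  rw [Finset.sum_pow_eq_sum_piAntidiag]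
  refine Finset.sum_congr rfl fun m hm => ?_
  have h1 : (∏ i, ((m i).factorial : ℂ)) ≠ 0 :=
    Finset.prod_ne_zero_iff.2 fun i _ => by exact_mod_cast (m i).factorial_ne_zero
  have h2 : (Nat.multinomial Finset.univ m : ℂ) = (t.factorial : ℂ) / ∏ i, ((m i).factorial : ℂ) := by
    have h3 := Nat.multinomial_spec Finset.univ m
    rw [(Finset.mem_piAntidiag.1 hm).1] at h3
    rw [eq_div_iff h1, mul_comm]
    exact_mod_cast h3
  have h4 : (∏ i, (MvPolynomial.C (star ((U : Mat d) i i)) * MvPolynomial.X i : MvPolynomial (Fin d) ℂ) ^ m i) =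
      MvPolynomial.monomial (Finsupp.equivFunOnFinite.symm m) (∏ i, (star ((U : Mat d) i i)) ^ (m i)) := by
    rw [MvPolynomial.monomial_eq, Finsupp.prod_fintype _ _ (fun i => by simp), map_prod, ← Finset.prod_mul_distrib]
    refine Finset.prod_congr rfl fun i _ => ?_
    rw [mul_pow, map_pow]
    rfl
  rw [h4, ← h2, ← MvPolynomial.C_mul_monomial, map_natCast]

lemma cont_e (i j : Fin d) : Continuous fun U : (Matrix.unitaryGroup (Fin d) ℂ) => (U : Mat d) i j :=
  (continuous_apply j).comp ((continuous_apply i).comp cont_val)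

lemma cont_s (i j : Fin d) : Continuous fun U : (Matrix.unitaryGroup (Fin d) ℂ) => star ((U : Mat d) i j) := (cont_e i j).star

/-- linear functionals under the integral -/
lemma T_mp (T : MvPolynomial (Fin d) ℂ →ₗ[ℂ] ℂ) {φ : (Matrix.unitaryGroup (Fin d) ℂ) → ℂ} (hφ : Continuous φ) (t : ℕ) :
    T (mp φ t) = ∫ U : (Matrix.unitaryGroup (Fin d) ℂ), φ U * T (Lf U ^ t) ∂(haarU (Fin d)) := by
  have hT : ∀ (m : Fin d →₀ ℕ) (c : ℂ), T (MvPolynomial.monomial m c) = c * T (MvPolynomial.monomial m 1) := by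
    intro m c
    rw [← smul_eq_mul, ← map_smul, MvPolynomial.smul_monomial, smul_eq_mul, mul_one]
  have hL : ∀ U : (Matrix.unitaryGroup (Fin d) ℂ), T (Lf U ^ t) = ∑ m ∈ Finset.piAntidiag Finset.univ t,
      ((t.factorial : ℂ) / (∏ i, ((m i).factorial : ℂ)) * ∏ i, (star ((U : Mat d) i i)) ^ (m i)) *
        T (MvPolynomial.monomial (Finsupp.equivFunOnFinite.symm m) 1) := by
    intro U
    rw [Lf_pow, map_sum]
    exact Finset.sum_congr rfl fun m _ => hT _ _
  unfold mp
  rw [map_sum, Finset.sum_congr rfl (fun m _ => hT _ _)]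
  simp_rw [hL, Finset.mul_sum]
  have hc : ∀ m : Fin d → ℕ, Continuous fun U : (Matrix.unitaryGroup (Fin d) ℂ) => φ U * ∏ i, (star ((U : Mat d) i i)) ^ (m i) := fun m =>
    hφ.mul (continuous_finsetProd _ fun i _ => (cont_s i i).pow _)
  rw [integral_finsetSum]
  · refine Finset.sum_congr rfl fun m _ => ?_
    rw [mul_right_comm, ← integral_const_mul]
    refine integral_congr_ae (Filter.Eventually.of_forall fun U => ?_)
    simp only
    ring
  · intro m _
    refine intble ?_
    exact hφ.mul ((continuous_const.mul (continuous_finsetProd _ fun i _ => (cont_s i i).pow _)).mul continuous_const)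

/-- the value of the linear form -/
noncomputable def av (x : Fin d → ℂ) (U : (Matrix.unitaryGroup (Fin d) ℂ)) : ℂ := ∑ i, x i * star ((U : Mat d) i i)

lemma av_eq (x : Fin d → ℂ) (U : (Matrix.unitaryGroup (Fin d) ℂ)) : av x U = Matrix.trace (Matrix.diagonal x * (U : Mat d)ᴴ) := by
  unfold av
  rw [Matrix.trace]
  refine Finset.sum_congr rfl fun i _ => ?_
  rw [Matrix.diag_apply, Matrix.diagonal_mul, Matrix.conjTranspose_apply]

lemma cont_av (x : Fin d → ℂ) : Continuous (av x) :=
  continuous_finsetSum _ fun i _ => continuous_const.mul (cont_s i i)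

lemma eval_Lf (x : Fin d → ℂ) (U : (Matrix.unitaryGroup (Fin d) ℂ)) : MvPolynomial.eval x (Lf U) = av x U := by
  unfold Lf av
  rw [map_sum]
  refine Finset.sum_congr rfl fun i _ => ?_
  rw [map_mul, MvPolynomial.eval_C, MvPolynomial.eval_X, mul_comm]

lemma pd_Lf (j : Fin d) (U : (Matrix.unitaryGroup (Fin d) ℂ)) : MvPolynomial.pderiv j (Lf U) = MvPolynomial.C (star ((U : Mat d) j j)) := by
  unfold Lf
  rw [map_sum, Finset.sum_eq_single j]
  · rw [MvPolynomial.pderiv_C_mul, MvPolynomial.pderiv_X_self, mul_one]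
  · intro i _ hi
    rw [MvPolynomial.pderiv_C_mul, MvPolynomial.pderiv_X_of_ne hi, mul_zero]
  · intro h
    exact absurd (Finset.mem_univ j) h

lemma pd_pow (j : Fin d) (U : (Matrix.unitaryGroup (Fin d) ℂ)) (t : ℕ) : MvPolynomial.pderiv j (Lf U ^ t) =
    (t : MvPolynomial (Fin d) ℂ) * Lf U ^ (t - 1) * MvPolynomial.C (star ((U : Mat d) j j)) := by
  rw [MvPolynomial.pderiv_pow, pd_Lf]

/-- evaluation as a linear map -/
noncomputable def ev (x : Fin d → ℂ) : MvPolynomial (Fin d) ℂ →ₗ[ℂ] ℂ := (MvPolynomial.aeval x).toLinearMap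

lemma ev_apply (x : Fin d → ℂ) (p : MvPolynomial (Fin d) ℂ) : ev x p = MvPolynomial.eval x p := by
  unfold ev
  rw [AlgHom.toLinearMap_apply, MvPolynomial.aeval_eq_eval]

lemma E0 {φ : (Matrix.unitaryGroup (Fin d) ℂ) → ℂ} (hφ : Continuous φ) (x : Fin d → ℂ) (t : ℕ) :
    MvPolynomial.eval x (mp φ t) = ∫ U : (Matrix.unitaryGroup (Fin d) ℂ), φ U * av x U ^ t ∂(haarU (Fin d)) := by
  rw [← ev_apply, T_mp _ hφ]
  refine integral_congr_ae (Filter.Eventually.of_forall fun U => ?_)
  simp only
  rw [ev_apply, map_pow, eval_Lf]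

lemma E1 {φ : (Matrix.unitaryGroup (Fin d) ℂ) → ℂ} (hφ : Continuous φ) (x : Fin d → ℂ) (t : ℕ) (j : Fin d) :
    MvPolynomial.eval x (MvPolynomial.pderiv j (mp φ (t + 1))) =
      (t + 1) * ∫ U : (Matrix.unitaryGroup (Fin d) ℂ), φ U * (av x U ^ t * star ((U : Mat d) j j)) ∂(haarU (Fin d)) := by
  have h : ev x (MvPolynomial.pderiv j (mp φ (t + 1))) =
      ∫ U : (Matrix.unitaryGroup (Fin d) ℂ), φ U * ev x (MvPolynomial.pderiv j (Lf U ^ (t + 1))) ∂(haarU (Fin d)) :=
    T_mp ((ev x) ∘ₗ (MvPolynomial.pderiv j).toLinearMap) hφ (t + 1)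
  rw [ev_apply] at h
  rw [h, ← integral_const_mul]
  refine integral_congr_ae (Filter.Eventually.of_forall fun U => ?_)
  simp only
  rw [ev_apply, pd_pow, map_mul, map_mul, map_natCast, map_pow, eval_Lf, MvPolynomial.eval_C]
  simp only [Nat.add_sub_cancel]
  push_cast
  ring

lemma E2 {φ : (Matrix.unitaryGroup (Fin d) ℂ) → ℂ} (hφ : Continuous φ) (x : Fin d → ℂ) (t : ℕ) (j : Fin d) :
    MvPolynomial.eval x (MvPolynomial.pderiv j (MvPolynomial.pderiv j (mp φ (t + 1)))) =
      ((t + 1) * t) * ∫ U : (Matrix.unitaryGroup (Fin d) ℂ), φ U * (av x U ^ (t - 1) *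
        (star ((U : Mat d) j j) * star ((U : Mat d) j j))) ∂(haarU (Fin d)) := by
  have h : ev x (MvPolynomial.pderiv j (MvPolynomial.pderiv j (mp φ (t + 1)))) =
      ∫ U : (Matrix.unitaryGroup (Fin d) ℂ), φ U * ev x (MvPolynomial.pderiv j (MvPolynomial.pderiv j (Lf U ^ (t + 1)))) ∂(haarU (Fin d)) :=
    T_mp ((ev x) ∘ₗ (MvPolynomial.pderiv j).toLinearMap ∘ₗ (MvPolynomial.pderiv j).toLinearMap) hφ (t + 1)
  rw [ev_apply] at h
  rw [h, ← integral_const_mul]
  refine integral_congr_ae (Filter.Eventually.of_forall fun U => ?_)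
  simp only
  rw [ev_apply, pd_pow, Nat.add_sub_cancel]
  have e : ((t + 1 : ℕ) : MvPolynomial (Fin d) ℂ) * Lf U ^ t * MvPolynomial.C (star ((U : Mat d) j j)) =
      MvPolynomial.C (((t : ℂ) + 1) * star ((U : Mat d) j j)) * Lf U ^ t := by
    rw [MvPolynomial.C_mul, MvPolynomial.C_add, MvPolynomial.C_1]
    push_cast
    rw [← map_natCast (MvPolynomial.C : ℂ →+* MvPolynomial (Fin d) ℂ) t]
    ring
  rw [e, MvPolynomial.pderiv_C_mul, pd_pow]
  simp only [MvPolynomial.eval_mul, MvPolynomial.eval_C, MvPolynomial.eval_pow, eval_Lf, map_natCast]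
  ring

lemma tr_single (i j : Fin d) (c : ℂ) (M : Mat d) : Matrix.trace (Matrix.single i j c * M) = c * M j i := by
  rw [Matrix.trace_mul_comm, Matrix.trace_mul_single, MulOpposite.smul_eq_mul_unop, MulOpposite.unop_op, mul_comm]

/-- `∫ (Tr U)^(t+1) a^(t-1) conj u_ij conj u_ji` -/
noncomputable def Jn (t : ℕ) (x : Fin d → ℂ) (i j : Fin d) : ℂ :=
  ∫ U : (Matrix.unitaryGroup (Fin d) ℂ), (Matrix.trace (U : Mat d)) ^ (t + 1) *
    (av x U ^ (t - 1) * (star ((U : Mat d) i j) * star ((U : Mat d) j i))) ∂(haarU (Fin d))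

/-- `∫ (Tr U)^(t+1) a^t conj u_jj` -/
noncomputable def Kn (t : ℕ) (x : Fin d → ℂ) (j : Fin d) : ℂ :=
  ∫ U : (Matrix.unitaryGroup (Fin d) ℂ), (Matrix.trace (U : Mat d)) ^ (t + 1) * (av x U ^ t * star ((U : Mat d) j j)) ∂(haarU (Fin d))

lemma cJ (t : ℕ) (x : Fin d → ℂ) (i j : Fin d) : Continuous fun U : (Matrix.unitaryGroup (Fin d) ℂ) => (Matrix.trace (U : Mat d)) ^ (t + 1) *
    (av x U ^ (t - 1) * (star ((U : Mat d) i j) * star ((U : Mat d) j i))) :=
  (cont_t.pow _).mul (((cont_av x).pow _).mul ((cont_s i j).mul (cont_s j i)))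

lemma cK (t : ℕ) (x : Fin d → ℂ) (j : Fin d) : Continuous fun U : (Matrix.unitaryGroup (Fin d) ℂ) => (Matrix.trace (U : Mat d)) ^ (t + 1) *
    (av x U ^ t * star ((U : Mat d) j j)) :=
  (cont_t.pow _).mul (((cont_av x).pow _).mul (cont_s j j))

/-- an integral of a combination of two -/
lemma int_comb (t : ℕ) (x : Fin d → ℂ) (i j k : Fin d) (α β : ℂ) :
    ∫ U : (Matrix.unitaryGroup (Fin d) ℂ), (α * ((Matrix.trace (U : Mat d)) ^ (t + 1) *
      (av x U ^ (t - 1) * (star ((U : Mat d) i j) * star ((U : Mat d) j i)))) +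
      β * ((Matrix.trace (U : Mat d)) ^ (t + 1) * (av x U ^ t * star ((U : Mat d) k k)))) ∂(haarU (Fin d)) =
    α * Jn t x i j + β * Kn t x k := by
  rw [integral_add ((intble (cJ t x i j)).const_mul α) ((intble (cK t x k)).const_mul β), integral_const_mul,
    integral_const_mul]
  rfl

lemma first (hSD : S_SD) (t : ℕ) (x : Fin d → ℂ) (i j : Fin d) :
    (x i - x j) * (t * Jn t x i j) = Kn t x i - Kn t x j := by
  have h := (PLR hSD t (Matrix.single i j 1) (Matrix.diagonal x) (Matrix.single j i 1))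
  have h2 := h.1.symm.trans h.2
  have e1 : (∫ U : (Matrix.unitaryGroup (Fin d) ℂ), (Matrix.trace (U : Mat d)) ^ (t + 1) *
        (t * Matrix.trace (Matrix.diagonal x * (U : Mat d)ᴴ) ^ (t - 1) *
          Matrix.trace (Matrix.single j i 1 * (U : Mat d)ᴴ) *
          Matrix.trace (Matrix.single i j 1 * Matrix.diagonal x * (U : Mat d)ᴴ) +
          Matrix.trace (Matrix.diagonal x * (U : Mat d)ᴴ) ^ t *
          Matrix.trace (Matrix.single i j 1 * Matrix.single j i 1 * (U : Mat d)ᴴ)) ∂(haarU (Fin d))) =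
      (t * x j) * Jn t x i j + 1 * Kn t x i := by
    rw [← int_comb]
    refine integral_congr_ae (Filter.Eventually.of_forall fun U => ?_)
    simp only
    rw [Matrix.single_mul_single_same, Matrix.mul_assoc (Matrix.single i j 1), tr_single, tr_single, tr_single,
      ← av_eq, Matrix.diagonal_mul, Matrix.conjTranspose_apply, Matrix.conjTranspose_apply,
      Matrix.conjTranspose_apply]
    ring
  have e2 : (∫ U : (Matrix.unitaryGroup (Fin d) ℂ), (Matrix.trace (U : Mat d)) ^ (t + 1) *
        (t * Matrix.trace (Matrix.diagonal x * (U : Mat d)ᴴ) ^ (t - 1) *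
          Matrix.trace (Matrix.single j i 1 * (U : Mat d)ᴴ) *
          Matrix.trace (Matrix.diagonal x * Matrix.single i j 1 * (U : Mat d)ᴴ) +
          Matrix.trace (Matrix.diagonal x * (U : Mat d)ᴴ) ^ t *
          Matrix.trace (Matrix.single j i 1 * Matrix.single i j 1 * (U : Mat d)ᴴ)) ∂(haarU (Fin d))) =
      (t * x i) * Jn t x i j + 1 * Kn t x j := by
    rw [← int_comb]
    refine integral_congr_ae (Filter.Eventually.of_forall fun U => ?_)
    simp only
    have e3 : Matrix.trace (Matrix.diagonal x * Matrix.single i j 1 * (U : Mat d)ᴴ) =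
        x i * star ((U : Mat d) i j) := by
      rw [Matrix.mul_assoc, Matrix.trace_mul_comm, Matrix.mul_assoc, tr_single, Matrix.mul_diagonal,
        Matrix.conjTranspose_apply]
      ring
    rw [e3, Matrix.single_mul_single_same, tr_single, tr_single, ← av_eq, Matrix.conjTranspose_apply,
      Matrix.conjTranspose_apply]
    ring
  rw [e1, e2] at h2
  linear_combination -h2

/-- `∫ (Tr U)^t a^t` -/
noncomputable def F0 (t : ℕ) (x : Fin d → ℂ) : ℂ :=
  ∫ U : (Matrix.unitaryGroup (Fin d) ℂ), (Matrix.trace (U : Mat d)) ^ t * av x U ^ t ∂(haarU (Fin d))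

lemma second0 (hSD : S_SD) (t : ℕ) (x : Fin d → ℂ) (a b : Fin d) :
    (t + 1) * x a * (∫ U : (Matrix.unitaryGroup (Fin d) ℂ), (Matrix.trace (U : Mat d)) ^ t * av x U ^ t *
      ((U : Mat d) b a * star ((U : Mat d) b a)) ∂(haarU (Fin d))) =
      t * (x a * x b * Jn t x a b) + x a * Kn t x a := by
  have h := (PLR hSD t (Matrix.single a b 1) (Matrix.diagonal x) (Matrix.single b a (x a))).1
  have e1 : (∫ U : (Matrix.unitaryGroup (Fin d) ℂ), (Matrix.trace (U : Mat d)) ^ (t + 1) *
        (t * Matrix.trace (Matrix.diagonal x * (U : Mat d)ᴴ) ^ (t - 1) *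
          Matrix.trace (Matrix.single b a (x a) * (U : Mat d)ᴴ) *
          Matrix.trace (Matrix.single a b 1 * Matrix.diagonal x * (U : Mat d)ᴴ) +
          Matrix.trace (Matrix.diagonal x * (U : Mat d)ᴴ) ^ t *
          Matrix.trace (Matrix.single a b 1 * Matrix.single b a (x a) * (U : Mat d)ᴴ)) ∂(haarU (Fin d))) =
      (t * (x a * x b)) * Jn t x a b + x a * Kn t x a := by
    rw [← int_comb]
    refine integral_congr_ae (Filter.Eventually.of_forall fun U => ?_)
    simp only
    rw [Matrix.single_mul_single_same, Matrix.mul_assoc (Matrix.single a b 1), tr_single, tr_single, tr_single,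
      ← av_eq, Matrix.diagonal_mul, Matrix.conjTranspose_apply, Matrix.conjTranspose_apply,
      Matrix.conjTranspose_apply]
    ring
  rw [e1] at h
  have e2 : (∫ U : (Matrix.unitaryGroup (Fin d) ℂ), (Matrix.trace (U : Mat d)) ^ t * Matrix.trace (Matrix.single a b 1 * (U : Mat d)) *
        ((t + 1) * Matrix.trace (Matrix.diagonal x * (U : Mat d)ᴴ) ^ t *
          Matrix.trace (Matrix.single b a (x a) * (U : Mat d)ᴴ)) ∂(haarU (Fin d))) =
      ((t + 1) * x a) * (∫ U : (Matrix.unitaryGroup (Fin d) ℂ), (Matrix.trace (U : Mat d)) ^ t * av x U ^ t *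
      ((U : Mat d) b a * star ((U : Mat d) b a)) ∂(haarU (Fin d))) := by
    rw [← integral_const_mul]
    refine integral_congr_ae (Filter.Eventually.of_forall fun U => ?_)
    simp only
    rw [tr_single, tr_single, ← av_eq, Matrix.conjTranspose_apply]
    ring
  rw [e2] at h
  rw [h]
  ring

lemma col_sum (U : (Matrix.unitaryGroup (Fin d) ℂ)) (a : Fin d) : ∑ b, (U : Mat d) b a * star ((U : Mat d) b a) = 1 := by
  have h := congrFun (congrFun (Matrix.UnitaryGroup.star_mul_self U) a) a
  rw [Matrix.mul_apply, Matrix.one_apply_eq] at h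
  rw [← h]
  refine Finset.sum_congr rfl fun b _ => ?_
  rw [Matrix.star_apply, mul_comm]

lemma second (hSD : S_SD) (t : ℕ) (x : Fin d → ℂ) :
    t * (∑ a, ∑ b, x a * x b * Jn t x a b) + d * F0 (t + 1) x = (t + 1) * ((∑ a, x a) * F0 t x) := by
  have h1 : ∀ a : Fin d, ∑ b, (∫ U : (Matrix.unitaryGroup (Fin d) ℂ), (Matrix.trace (U : Mat d)) ^ t * av x U ^ t *
      ((U : Mat d) b a * star ((U : Mat d) b a)) ∂(haarU (Fin d))) = F0 t x := by
    intro a
    rw [← integral_finsetSum]
    · refine integral_congr_ae (Filter.Eventually.of_forall fun U => ?_)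
      simp only
      rw [← Finset.mul_sum, col_sum, mul_one]
    · intro b _
      exact intble (((cont_t.pow _).mul ((cont_av x).pow _)).mul ((cont_e b a).mul (cont_s b a)))
  have h2 : ∑ a, x a * Kn t x a = F0 (t + 1) x := by
    unfold Kn F0
    simp_rw [← integral_const_mul]
    rw [← integral_finsetSum]
    · refine integral_congr_ae (Filter.Eventually.of_forall fun U => ?_)
      simp only
      rw [pow_succ (av x U) t]
      conv_rhs => rw [av, ← mul_assoc, Finset.mul_sum]
      refine Finset.sum_congr rfl fun a _ => ?_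
      show _ = _ * (av x U) ^ t * _
      ring
    · intro a _
      exact (intble (cK t x a)).const_mul _
  have h3 : ∀ a : Fin d, (t + 1) * x a * F0 t x = t * (∑ b, x a * x b * Jn t x a b) + d * (x a * Kn t x a) := by
    intro a
    rw [← h1 a, Finset.mul_sum, Finset.mul_sum, Finset.sum_congr rfl (fun b _ => second0 hSD t x a b),
      Finset.sum_add_distrib, Finset.sum_const, Finset.card_univ, Fintype.card_fin, nsmul_eq_mul]
  calc t * (∑ a, ∑ b, x a * x b * Jn t x a b) + d * F0 (t + 1) x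
      = ∑ a, (t * (∑ b, x a * x b * Jn t x a b) + d * (x a * Kn t x a)) := by
        rw [Finset.sum_add_distrib, ← Finset.mul_sum, ← Finset.mul_sum, h2]
    _ = ∑ a, (t + 1) * x a * F0 t x := Finset.sum_congr rfl fun a _ => (h3 a).symm
    _ = _ := by
        rw [← Finset.sum_mul, ← Finset.mul_sum]
        ring

end

theorem t_C2P : S_SD → S_C2P := by
  intro hSD d t
  have hφ : Continuous fun U : Matrix.unitaryGroup (Fin d) ℂ => (Matrix.trace (U : Mat d)) ^ (t + 1) := cont_t.pow _
  have hφ0 : Continuous fun U : Matrix.unitaryGroup (Fin d) ℂ => (Matrix.trace (U : Mat d)) ^ t := cont_t.pow _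
  have hf : fp d (t + 1) = mp (fun U => (Matrix.trace (U : Mat d)) ^ (t + 1)) (t + 1) := rfl
  have hf0 : fp d t = mp (fun U => (Matrix.trace (U : Mat d)) ^ t) t := rfl
  have hψ : ∀ i j : Fin d, Continuous fun U : Matrix.unitaryGroup (Fin d) ℂ =>
      (Matrix.trace (U : Mat d)) ^ (t + 1) * (star ((U : Mat d) i j) * star ((U : Mat d) j i)) := fun i j =>
    hφ.mul ((cont_s i j).mul (cont_s j i))
  have hs : ∀ (x : Fin d → ℂ) (i j : Fin d), MvPolynomial.eval x
      (MvPolynomial.C (((t : ℂ) + 1) * t) * mp (fun U : Matrix.unitaryGroup (Fin d) ℂ =>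
        (Matrix.trace (U : Mat d)) ^ (t + 1) * (star ((U : Mat d) i j) * star ((U : Mat d) j i))) (t - 1)) =
      (((t : ℂ) + 1) * t) * Jn t x i j := by
    intro x i j
    rw [map_mul, MvPolynomial.eval_C, E0 (hψ i j)]
    congr 1
    refine integral_congr_ae (Filter.Eventually.of_forall fun U => ?_)
    simp only
    ring
  refine ⟨fun i j => MvPolynomial.C (((t : ℂ) + 1) * t) * mp (fun U : Matrix.unitaryGroup (Fin d) ℂ =>
        (Matrix.trace (U : Mat d)) ^ (t + 1) * (star ((U : Mat d) i j) * star ((U : Mat d) j i))) (t - 1), ?_, ?_⟩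
  · intro i j
    refine MvPolynomial.funext fun x => ?_
    rw [map_mul, map_sub, map_sub, MvPolynomial.eval_X, MvPolynomial.eval_X, hs, hf, E1 hφ, E1 hφ]
    have h := first hSD t x i j
    change (x i - x j) * ((((t : ℂ) + 1) * t) * Jn t x i j) = (t + 1) * Kn t x i - (t + 1) * Kn t x j
    linear_combination (t + 1 : ℂ) * h
  · refine MvPolynomial.funext fun x => ?_
    have h := second hSD t x
    have e1 : MvPolynomial.eval x (fp d (t + 1)) = F0 (t + 1) x := by
      rw [hf, E0 hφ]
      rfl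
    have e2 : MvPolynomial.eval x (fp d t) = F0 t x := by
      rw [hf0, E0 hφ0]
      rfl
    have e3 : ∀ i, MvPolynomial.eval x (MvPolynomial.pderiv i (MvPolynomial.pderiv i (fp d (t + 1)))) =
        (((t : ℂ) + 1) * t) * Jn t x i i := by
      intro i
      rw [hf, E2 hφ]
      rfl
    simp only [map_add, map_mul, map_sum, map_pow, MvPolynomial.eval_X, MvPolynomial.eval_C, e1, e2, e3]
    have hs' : ∀ i j : Fin d, (((t : ℂ) + 1) * t) * MvPolynomial.eval x (mp (fun U : Matrix.unitaryGroup (Fin d) ℂ =>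
        (Matrix.trace (U : Mat d)) ^ (t + 1) * (star ((U : Mat d) i j) * star ((U : Mat d) j i))) (t - 1)) =
        (((t : ℂ) + 1) * t) * Jn t x i j := by
      intro i j
      rw [← hs x i j, map_mul, MvPolynomial.eval_C]
    simp only [hs']
    have e4 : ∀ i : Fin d, x i ^ 2 * ((((t : ℂ) + 1) * t) * Jn t x i i) +
        ∑ j ∈ Finset.univ.erase i, x i * x j * ((((t : ℂ) + 1) * t) * Jn t x i j) =
        (((t : ℂ) + 1) * t) * ∑ j, x i * x j * Jn t x i j := by
      intro i
      rw [← Finset.add_sum_erase Finset.univ (fun j => x i * x j * Jn t x i j) (Finset.mem_univ i), mul_add,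
        Finset.mul_sum]
      congr 1
      · ring
      · exact Finset.sum_congr rfl fun j _ => by ring
    rw [← Finset.sum_add_distrib, Finset.sum_congr rfl (fun i _ => e4 i), ← Finset.mul_sum]
    linear_combination ((t : ℂ) + 1) * h

end Pool.Agent.J4H61.QB.C2
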