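import Pool.Agent.J4H61.QB.KKmain

set_option autoImplicit false

/-! Piece ALL: the maximum of `F` is attained at the identity. -/

open Matrix MeasureTheory
open scoped ComplexOrder

namespace Pool.Agent.J4H61.QB
open Pool.Agent.V11219.MomentOp

variable {d : ℕ}

lemma hasDeriv (a b : Fin d → ℝ) (P : MvPolynomial (Fin d) ℂ) (s : ℝ) :
    HasDerivAt (fun s : ℝ => MvPolynomial.eval (fun i => ((a i + s * b i : ℝ) : ℂ)) P)
      (∑ i, (b i : ℂ) * MvPolynomial.eval (fun i => ((a i + s * b i : ℝ) : ℂ))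
        (MvPolynomial.pderiv i P)) s := by
  induction P using MvPolynomial.induction_on with
  | C c =>
    simp only [MvPolynomial.eval_C, MvPolynomial.pderiv_C, map_zero, mul_zero, Finset.sum_const_zero]
    exact hasDerivAt_const s c
  | add p q hp hq =>
    simp only [map_add, mul_add, Finset.sum_add_distrib]
    exact hp.add hq
  | mul_X p j hp =>
    have h1 : HasDerivAt (fun s : ℝ => ((a j + s * b j : ℝ) : ℂ)) (b j : ℂ) s := by
      have h2 : HasDerivAt (fun s : ℝ => a j + s * b j) (b j) s := by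
        simpa using ((hasDerivAt_id s).mul_const (b j)).const_add (a j)
      exact h2.ofReal_comp
    have h3 := hp.mul h1
    have e1 : (fun s : ℝ => MvPolynomial.eval (fun i => ((a i + s * b i : ℝ) : ℂ))
        (p * MvPolynomial.X j)) = fun s : ℝ =>
        MvPolynomial.eval (fun i => ((a i + s * b i : ℝ) : ℂ)) p * ((a j + s * b j : ℝ) : ℂ) := by
      funext s; simp
    have e2 : (∑ i, (b i : ℂ) * MvPolynomial.eval (fun i => ((a i + s * b i : ℝ) : ℂ))
        (MvPolynomial.pderiv i (p * MvPolynomial.X j))) =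
        (∑ i, (b i : ℂ) * MvPolynomial.eval (fun i => ((a i + s * b i : ℝ) : ℂ))
          (MvPolynomial.pderiv i p)) * ((a j + s * b j : ℝ) : ℂ) +
        MvPolynomial.eval (fun i => ((a i + s * b i : ℝ) : ℂ)) p * (b j : ℂ) := by
      have e3 : ∀ i, (b i : ℂ) * MvPolynomial.eval (fun i => ((a i + s * b i : ℝ) : ℂ))
          (MvPolynomial.pderiv i (p * MvPolynomial.X j)) =
          (b i : ℂ) * MvPolynomial.eval (fun i => ((a i + s * b i : ℝ) : ℂ))
            (MvPolynomial.pderiv i p) * ((a j + s * b j : ℝ) : ℂ) +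
          (if i = j then MvPolynomial.eval (fun i => ((a i + s * b i : ℝ) : ℂ)) p * (b j : ℂ)
            else 0) := by
        intro i
        rw [Derivation.leibniz, MvPolynomial.pderiv_X]
        by_cases h : i = j
        · subst h; simp; ring
        · simp [Pi.single_eq_of_ne (Ne.symm h), h]; ring
      rw [Finset.sum_congr rfl fun i _ => e3 i, Finset.sum_add_distrib, Finset.sum_mul]
      simp
    rw [e1, e2]
    exact h3

/-- the real part of the value along a line -/
noncomputable def fl (a b : Fin d → ℝ) (t : ℕ) (s : ℝ) : ℝ := F d t (dg fun i => a i + s * b i)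

lemma fl_eq (a b : Fin d → ℝ) (t : ℕ) : fl a b t = fun s : ℝ =>
    (MvPolynomial.eval (fun i => ((a i + s * b i : ℝ) : ℂ)) (fp d t)).re := by
  funext s
  rw [fl, F, ← Pool.Agent.J4H21.QB.Fe.eval_fp]

lemma fl_deriv (a b : Fin d → ℝ) (t : ℕ) (s : ℝ) : HasDerivAt (fl a b t)
    (∑ i, (b i : ℂ) * MvPolynomial.eval (fun i => ((a i + s * b i : ℝ) : ℂ))
        (MvPolynomial.pderiv i (fp d t))).re s := by
  rw [fl_eq]
  exact (Complex.reCLM.hasFDerivAt.comp_hasDerivAt s (hasDeriv a b (fp d t) s))

lemma core_line (t : ℕ) (x : Fin d → ℝ) (hx : StrictAnti x) (hpos : ∀ i, 0 < x i)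
    (hsum : ∑ i, x i = d) : F d (t + 1) (dg x) ≤ F d (t + 1) 1 := by
  have hd : 0 < d ∨ d = 0 := by omega
  rcases hd with hd | hd
  swap
  · subst hd
    have : dg x = 1 := by ext i; exact i.elim0
    rw [this]
  set f := fl (fun _ => 1) (fun i => x i - 1) (t + 1) with hf
  have hfd : ∀ s, HasDerivAt f _ s := fun s => fl_deriv (fun _ => 1) (fun i => x i - 1) (t + 1) s
  have hanti : AntitoneOn f (Set.Icc 0 1) := by
    apply antitoneOn_of_deriv_nonpos (convex_Icc 0 1)
    · exact fun s _ => (hfd s).continuousAt.continuousWithinAt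
    · exact fun s _ => (hfd s).differentiableAt.differentiableWithinAt
    · intro s hs
      rw [interior_Icc] at hs
      rw [(hfd s).deriv]
      set y : Fin d → ℝ := fun i => 1 + s * (x i - 1) with hy
      have hya : StrictAnti y := by
        intro i j hij
        have := hx hij
        simp only [hy]
        nlinarith [hs.1]
      have hyp : ∀ i, 0 < y i := by
        intro i
        have h1 := mul_pos hs.1 (hpos i)
        simp only [hy]
        nlinarith [hs.2]
      have hys : ∑ i, y i = d := by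
        simp only [hy]
        rw [Finset.sum_add_distrib, ← Finset.mul_sum, Finset.sum_sub_distrib, hsum]
        simp
      have hk := kk d t y hya hyp
      rw [hys] at hk
      have hFG : F d (t + 1) (dg y) ≤ G d (t + 1) (dg y) := by
        have hdp : (0 : ℝ) < d := by exact_mod_cast hd
        exact le_of_mul_le_mul_left hk hdp
      have hev : ((s : ℂ) * ∑ i, (((x i - 1 : ℝ) : ℂ)) *
          MvPolynomial.eval (fun i => ((1 + s * (x i - 1) : ℝ) : ℂ))
          (MvPolynomial.pderiv i (fp d (t + 1)))) =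
          ((t : ℂ) + 1) * MvPolynomial.eval (fun i => (y i : ℂ)) (fp d (t + 1)) -
          MvPolynomial.eval (fun i => (y i : ℂ)) (Pool.Agent.J4H21.QB.Fe.D (fp d (t + 1))) := by
        have h1 := congrArg (MvPolynomial.eval (fun i => (y i : ℂ)))
          (Pool.Agent.J4H16.QB.euler d (t + 1))
        rw [map_mul, MvPolynomial.eval_C, map_sum] at h1
        push_cast at h1
        rw [← h1, Pool.Agent.J4H21.QB.Fe.D, map_sum, ← Finset.sum_sub_distrib, Finset.mul_sum]
        refine Finset.sum_congr rfl fun i _ => ?_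
        rw [map_mul, MvPolynomial.eval_X]
        simp only [hy]
        push_cast
        ring
      have hre := congrArg Complex.re hev
      rw [Pool.Agent.J4H21.QB.Fe.eval_Dfp, Pool.Agent.J4H21.QB.Fe.eval_fp] at hre
      have e1 : ((t : ℂ) + 1) = (((t : ℝ) + 1 : ℝ) : ℂ) := by push_cast; ring
      rw [e1, ← mul_sub, Complex.re_ofReal_mul, Complex.re_ofReal_mul, Complex.sub_re] at hre
      have hre2 : s * (∑ i, (((x i - 1 : ℝ) : ℂ)) *
          MvPolynomial.eval (fun i => ((1 + s * (x i - 1) : ℝ) : ℂ))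
          (MvPolynomial.pderiv i (fp d (t + 1)))).re =
          ((t : ℝ) + 1) * (F d (t + 1) (dg y) - G d (t + 1) (dg y)) := hre
      have h5 : ((t : ℝ) + 1) * (F d (t + 1) (dg y) - G d (t + 1) (dg y)) ≤ 0 :=
        mul_nonpos_of_nonneg_of_nonpos (by positivity) (by linarith)
      by_contra hcon
      push Not at hcon
      have := mul_pos hs.1 hcon
      rw [← hre2] at h5
      linarith
  have h1 := hanti (Set.left_mem_Icc.mpr zero_le_one) (Set.right_mem_Icc.mpr zero_le_one)
    zero_le_one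
  have e0 : f 0 = F d (t + 1) 1 := by
    rw [hf, fl]; congr 1
    simp [dg]
  have e1 : f 1 = F d (t + 1) (dg x) := by
    rw [hf, fl]; congr 1
    simp [dg]
  rwa [e0, e1] at h1

/-- strictly decreasing weights -/
noncomputable def wt (d : ℕ) : Fin d → ℝ := fun i => 2 * ((d : ℝ) - (i : ℕ)) / (d + 1)

lemma wt_pos (i : Fin d) : 0 < wt d i := by
  have h : ((i : ℕ) : ℝ) < d := by exact_mod_cast i.2
  unfold wt
  apply div_pos <;> linarith [Nat.cast_nonneg (α := ℝ) (i : ℕ)]

lemma wt_anti : StrictAnti (wt d) := by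
  intro i j hij
  have h : ((i : ℕ) : ℝ) < (j : ℕ) := by exact_mod_cast hij
  have h2 : (0 : ℝ) < d + 1 := by positivity
  unfold wt
  exact div_lt_div_of_pos_right (by linarith) h2

lemma wt_sum : ∑ i, wt d i = d := by
  unfold wt
  rw [← Finset.sum_div, ← Finset.mul_sum, Finset.sum_sub_distrib]
  have h1 : ∑ i : Fin d, (((i : ℕ) : ℝ)) = (d.choose 2 : ℝ) := by
    rw [Fin.sum_univ_eq_sum_range (fun i => (i : ℝ)), sum_id]
  rw [h1, Nat.cast_choose_two]
  simp only [Finset.sum_const, Finset.card_univ, Fintype.card_fin, nsmul_eq_mul]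
  have h2 : ((d : ℝ) + 1) ≠ 0 := by positivity
  field_simp
  ring

lemma core_anti (t : ℕ) (x : Fin d → ℝ) (hx : Antitone x) (hpos : ∀ i, 0 ≤ x i)
    (hsum : ∑ i, x i = d) : F d (t + 1) (dg x) ≤ F d (t + 1) 1 := by
  have hc : ContinuousAt (fl x (fun i => wt d i - x i) (t + 1)) 0 :=
    (fl_deriv x (fun i => wt d i - x i) (t + 1) 0).continuousAt
  have h0 : fl x (fun i => wt d i - x i) (t + 1) 0 = F d (t + 1) (dg x) := by
    rw [fl]; congr 1; simp
  have ht : Filter.Tendsto (fl x (fun i => wt d i - x i) (t + 1))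
      (nhdsWithin 0 (Set.Ioi 0)) (nhds (F d (t + 1) (dg x))) := by
    rw [← h0]
    exact hc.tendsto.mono_left nhdsWithin_le_nhds
  refine le_of_tendsto ht ?_
  have hmem : Set.Ioo (0 : ℝ) 1 ∈ nhdsWithin (0 : ℝ) (Set.Ioi 0) :=
    Ioo_mem_nhdsGT zero_lt_one
  filter_upwards [hmem] with s hs
  rw [fl]
  apply core_line
  · intro i j hij
    have h1 := hx hij.le
    have h2 := wt_anti hij
    have h3 := mul_lt_mul_of_pos_left h2 hs.1
    have h4 : (0 : ℝ) < 1 - s := by linarith [hs.2]
    have h5 := mul_le_mul_of_nonneg_left h1 h4.le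
    simp only
    nlinarith
  · intro i
    have h1 := mul_pos hs.1 (wt_pos i)
    have h4 : (0 : ℝ) < 1 - s := by linarith [hs.2]
    have h5 := mul_nonneg h4.le (hpos i)
    nlinarith
  · rw [Finset.sum_add_distrib, ← Finset.mul_sum, Finset.sum_sub_distrib, hsum, wt_sum]
    simp

lemma F_perm (t : ℕ) (x : Fin d → ℝ) (σ : Equiv.Perm (Fin d)) :
    F d t (dg fun i => x (σ i)) = F d t (dg x) := by
  have h1 : ∀ y : Fin d → ℝ, F d t (dg y) =
      (MvPolynomial.eval (fun i => (y i : ℂ)) (fp d t)).re := by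
    intro y
    rw [F, ← Pool.Agent.J4H21.QB.Fe.eval_fp]
  rw [h1, h1]
  congr 1
  conv_rhs => rw [← Pool.Agent.J4H16.QB.rename_fp t σ, MvPolynomial.eval_rename]
  rfl

lemma core_diag (t : ℕ) (x : Fin d → ℝ) (hpos : ∀ i, 0 ≤ x i)
    (hsum : ∑ i, x i = d) : F d t (dg x) ≤ F d t 1 := by
  cases t with
  | zero => simp [F]
  | succ t =>
    set σ : Equiv.Perm (Fin d) := Fin.revPerm.trans (Tuple.sort x) with hσ
    rw [← F_perm (t + 1) x σ]
    apply core_anti
    · intro a b hab
      exact Tuple.monotone_sort x (Fin.rev_le_rev.mpr hab)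
    · intro i; exact hpos _
    · rw [Equiv.sum_comp σ x, hsum]

theorem all : S_ALL := by
  intro d t X hX htr
  have hs := hX.1.spectral_theorem
  rw [Unitary.conjStarAlgAut_apply] at hs
  have hD : (Matrix.diagonal (RCLike.ofReal ∘ hX.1.eigenvalues) : Mat d) =
      dg hX.1.eigenvalues := rfl
  rw [hD] at hs
  have hF : F d t X = F d t (dg hX.1.eigenvalues) := by
    conv_lhs => rw [hs]
    exact Pool.Agent.J4H97.QB.Diag.F_conj d t hX.1.eigenvectorUnitary _
  rw [hF]
  apply core_diag t _ (fun i => hX.eigenvalues_nonneg i)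
  have h1 := hX.1.trace_eq_sum_eigenvalues
  rw [htr] at h1
  have h2 : ((∑ i, hX.1.eigenvalues i : ℝ) : ℂ) = ((d : ℝ) : ℂ) := by
    push_cast
    exact h1.symm
  exact_mod_cast h2

end Pool.Agent.J4H61.QB
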