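import Pool.Agent.J4H61.QB.All
import Pool.Agent.J4H61.QB.Max
import Pool.Agent.J4H70.QB.Low

set_option autoImplicit false

/-! The norm hierarchy: assembly. -/

open Matrix MeasureTheory
open scoped ComplexOrder

namespace Pool.Agent.J4H61.QB
open Pool.Agent.V11219.MomentOp

theorem upper (t k d dE : ℕ) (ψ : Fin dE → ℂ) (hk : 1 ≤ k)
    (hψ : ∑ x, ‖ψ x‖ ^ 2 = 1) : N t k d dE ψ ≤ hsNormSq (haarOp d t) :=
  full all t k d dE ψ hk hψ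

theorem low (t k d dE : ℕ) (ψ : Fin dE → ℂ) (hd : 1 ≤ d) (hψ : ∑ x, ‖ψ x‖ ^ 2 = 1) :
    hsNormSq (tensorPow t (depol d)) = 1 ∧ 1 ≤ N t k d dE ψ :=
  Pool.Agent.J4H70.QB.t_LOW t k d dE ψ hd hψ

end Pool.Agent.J4H61.QB
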