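import Pool.Agent.J4H61.QB.Stm3

set_option autoImplicit false

/-! Statements for the inequality `F d t X ≤ F d t 1` in every dimension. -/

open Matrix MeasureTheory
open scoped ComplexOrder

namespace Pool.Agent.J4H61.QB
open Pool.Agent.V11219.MomentOp

/-- `∏_{i<j} (u_i - u_j)` -/
noncomputable def Dl {d : ℕ} (u : Fin d → ℝ) : ℝ := ∏ i, ∏ j ∈ Finset.Ioi i, (u i - u j)

/-- `m + e_i` -/
def up {d : ℕ} (m : Fin d → ℕ) (i : Fin d) : Fin d → ℕ := Function.update m i (m i + 1)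

/-- the vector of real numbers of `m` -/
noncomputable def rl {d : ℕ} (m : Fin d → ℕ) : Fin d → ℝ := fun i => (m i : ℝ)

/-- the alternant `det (x_i ^ μ_j)` -/
noncomputable def Al {d : ℕ} (μ : Fin d → ℕ) (x : Fin d → ℝ) : ℝ :=
  Matrix.det (Matrix.of fun i j => x i ^ μ j)

/-- the product of the factorials -/
def fa {d : ℕ} (m : Fin d → ℕ) : ℝ := ((∏ i, (m i).factorial : ℕ) : ℝ)

/-- real diagonal matrix -/
noncomputable def dg {d : ℕ} (x : Fin d → ℝ) : Mat d := Matrix.diagonal fun i => (x i : ℂ)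

/-- `F` at diagonal matrices as a polynomial -/
noncomputable def fp (d t : ℕ) : MvPolynomial (Fin d) ℂ :=
  ∑ m ∈ Finset.piAntidiag Finset.univ t,
    MvPolynomial.monomial (Finsupp.equivFunOnFinite.symm m)
      ((t.factorial : ℂ) / (∏ i, ((m i).factorial : ℂ)) *
        ∫ U : Matrix.unitaryGroup (Fin d) ℂ, (Matrix.trace (U : Mat d)) ^ t *
          ∏ i, (star ((U : Mat d) i i)) ^ (m i) ∂(haarU (Fin d)))

/-- the Vandermonde polynomial -/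
noncomputable def vp (d : ℕ) : MvPolynomial (Fin d) ℂ :=
  ∏ i, ∏ j ∈ Finset.Ioi i, (MvPolynomial.X i - MvPolynomial.X j)

/-- `∫ (Tr U)^t (Tr (X U†))^(t-1) Tr U† dU` (real part) -/
noncomputable def G (d t : ℕ) (X : Mat d) : ℝ :=
  (∫ U : Matrix.unitaryGroup (Fin d) ℂ, (Matrix.trace (U : Mat d)) ^ t *
    ((Matrix.trace (X * (U : Mat d)ᴴ)) ^ (t - 1) * Matrix.trace (U : Mat d)ᴴ) ∂(haarU (Fin d))).re

/-- (SD) Schwinger-Dyson equations, left and right -/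
def S_SD : Prop := ∀ (d t : ℕ) (K B : Mat d),
  (∫ U : Matrix.unitaryGroup (Fin d) ℂ, (Matrix.trace (U : Mat d)) ^ t *
      Matrix.trace (K * (U : Mat d)) * (Matrix.trace (B * (U : Mat d)ᴴ)) ^ (t + 1) ∂(haarU (Fin d)) =
    ∫ U : Matrix.unitaryGroup (Fin d) ℂ, (Matrix.trace (U : Mat d)) ^ (t + 1) *
      ((Matrix.trace (B * (U : Mat d)ᴴ)) ^ t * Matrix.trace (K * B * (U : Mat d)ᴴ)) ∂(haarU (Fin d))) ∧
  (∫ U : Matrix.unitaryGroup (Fin d) ℂ, (Matrix.trace (U : Mat d)) ^ t *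
      Matrix.trace (K * (U : Mat d)) * (Matrix.trace (B * (U : Mat d)ᴴ)) ^ (t + 1) ∂(haarU (Fin d)) =
    ∫ U : Matrix.unitaryGroup (Fin d) ℂ, (Matrix.trace (U : Mat d)) ^ (t + 1) *
      ((Matrix.trace (B * (U : Mat d)ᴴ)) ^ t * Matrix.trace (B * K * (U : Mat d)ᴴ)) ∂(haarU (Fin d)))

/-- (C2P) the second-order equation for `fp` -/
def S_C2P : Prop := ∀ (d t : ℕ), ∃ s : Fin d → Fin d → MvPolynomial (Fin d) ℂ,
  (∀ i j, (MvPolynomial.X i - MvPolynomial.X j) * s i j =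
    MvPolynomial.pderiv i (fp d (t + 1)) - MvPolynomial.pderiv j (fp d (t + 1))) ∧
  (∑ i, MvPolynomial.X i ^ 2 * MvPolynomial.pderiv i (MvPolynomial.pderiv i (fp d (t + 1)))) +
    (∑ i, ∑ j ∈ Finset.univ.erase i, MvPolynomial.X i * MvPolynomial.X j * s i j) +
    MvPolynomial.C ((d : ℂ) * (t + 1)) * fp d (t + 1) =
  MvPolynomial.C (((t : ℂ) + 1) ^ 2) * ((∑ i, MvPolynomial.X i) * fp d t)

/-- (RAD) radial part: conjugation with the Vandermonde polynomial -/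
def S_RAD : Prop := ∀ (d : ℕ) (c : ℂ) (f : MvPolynomial (Fin d) ℂ)
  (s : Fin d → Fin d → MvPolynomial (Fin d) ℂ),
  (∀ i j, (MvPolynomial.X i - MvPolynomial.X j) * s i j =
    MvPolynomial.pderiv i f - MvPolynomial.pderiv j f) →
  (∑ i, MvPolynomial.X i * MvPolynomial.pderiv i f = MvPolynomial.C c * f) →
  ∀ m : Fin d →₀ ℕ, MvPolynomial.coeff m (vp d *
    ((∑ i, MvPolynomial.X i ^ 2 * MvPolynomial.pderiv i (MvPolynomial.pderiv i f)) +
    (∑ i, ∑ j ∈ Finset.univ.erase i, MvPolynomial.X i * MvPolynomial.X j * s i j) +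
    MvPolynomial.C ((d : ℂ) * c) * f)) =
  ((∑ i, ((m i : ℂ)) ^ 2) - ((d : ℂ) - 1) * (∑ i, (m i : ℂ)) + (d.choose 3 : ℂ)) *
    MvPolynomial.coeff m (vp d * f)

/-- (NN) identities for the Vandermonde product -/
def S_NN : Prop := ∀ (d : ℕ) (u : Fin d → ℝ),
  (∑ i, Dl (Function.update u i (u i + 1)) = d * Dl u) ∧
  (∑ i, u i * Dl (Function.update u i (u i - 1)) = ((∑ i, u i) - (d.choose 2 : ℝ)) * Dl u) ∧
  (∑ i, u i ^ 2 * Dl (Function.update u i (u i - 1)) =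
    ((∑ i, u i ^ 2) - ((d : ℝ) - 1) * (∑ i, u i) + (d.choose 3 : ℝ)) * Dl u)

/-- (E0) positivity of the eigenvalue -/
def S_E0 : Prop := ∀ (d : ℕ) (m : Fin d → ℕ), Function.Injective m → d.choose 2 < ∑ i, m i →
  0 < (∑ i, (m i : ℝ) ^ 2) - ((d : ℝ) - 1) * (∑ i, (m i : ℝ)) + (d.choose 3 : ℝ)

/-- (FEC) the coefficients of `vp * fp` -/
def S_FEC : Prop := ∀ d : ℕ, ∃ c : ℕ → ℝ, (∀ t, 0 < c t) ∧ ∀ (t : ℕ) (m : Fin d →₀ ℕ),
  ∑ i, m i = t + d.choose 2 →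
  MvPolynomial.coeff m (vp d * fp d t) = ((c t * Dl (rl m) / (fa m) ^ 2 : ℝ) : ℂ)

/-- (FE) the expansions of `F` and `G` at diagonal matrices -/
def S_FE : Prop := ∀ d : ℕ, ∃ c : ℕ → ℝ, (∀ t, 0 < c t) ∧ ∀ (t : ℕ) (x : Fin d → ℝ),
  Dl x * F d t (dg x) = c t * ∑ m ∈ Finset.piAntidiag Finset.univ (t + d.choose 2),
    Dl (rl m) / (fa m) ^ 2 * ∏ i, x i ^ m i ∧
  Dl x * ((t + 1 : ℕ) * G d (t + 1) (dg x)) =
    c (t + 1) * ∑ m ∈ Finset.piAntidiag Finset.univ (t + d.choose 2),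
      (∑ i, Dl (rl (up m i)) / ((m i : ℝ) + 1)) / (fa m) ^ 2 * ∏ i, x i ^ m i

/-- (SRA) normalised alternants are monotone -/
def S_SRA : Prop := ∀ (d : ℕ) (μ : Fin d → ℕ) (x : Fin d → ℝ), StrictAnti μ → StrictAnti x →
  (∀ i, 0 < x i) → ∀ i j : Fin d, i < j →
    Al (up μ j) x * Dl (rl (up μ i)) ≤ Al (up μ i) x * Dl (rl (up μ j))

/-- (PAL) the Pieri rule for alternants -/
def S_PAL : Prop := ∀ (d : ℕ) (μ : Fin d → ℕ) (x : Fin d → ℝ),
  (∑ i, x i) * Al μ x = ∑ i, Al (up μ i) x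

/-- (KMU) the inequality for one exponent -/
def S_KMU : Prop := ∀ (d : ℕ) (m : Fin d → ℕ) (x : Fin d → ℝ), StrictAnti x → (∀ i, 0 < x i) →
  (d * Dl (rl m)) * (∑ i, Al (up m i) x / ((m i : ℝ) + 1)) ≤
    ((∑ i, x i) * Al m x) * ∑ i, Dl (rl (up m i)) / ((m i : ℝ) + 1)

/-- (KK) the inequality between `F` and `G` -/
def S_KK : Prop := ∀ (d t : ℕ) (x : Fin d → ℝ), StrictAnti x → (∀ i, 0 < x i) →
  d * F d (t + 1) (dg x) ≤ (∑ i, x i) * G d (t + 1) (dg x)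

/-- (ALL) the maximum is attained at the identity -/
def S_ALL : Prop := ∀ (d t : ℕ) (X : Mat d), X.PosSemidef → X.trace = d → F d t X ≤ F d t 1

end Pool.Agent.J4H61.QB
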