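import Pool.Agent.J4H61.QB.Sra
import Pool.Agent.J4H61.QB.C2q
import Pool.Agent.J4H89.QB.Rad
import Pool.Agent.J4H3.QB.Nn
import Pool.Agent.J4H79.QB.Sd
import Pool.Agent.J4H16.QB.Fec
import Pool.Agent.J4H21.QB.Fe
import Pool.Agent.J4H5.QB.Kk

set_option autoImplicit false

/-! The inequality between `F` and `G`: assembly. -/

open Matrix MeasureTheory
open scoped ComplexOrder

namespace Pool.Agent.J4H61.QB
open Pool.Agent.V11219.MomentOp

theorem kk : S_KK :=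
  Pool.Agent.J4H5.QB.t_KK
    (Pool.Agent.J4H21.QB.t_FE
      (Pool.Agent.J4H16.QB.t_FEC (Pool.Agent.J4H61.QB.C2.t_C2P Pool.Agent.J4H79.QB.t_SD)
        Pool.Agent.J4H89.QB.t_RAD Pool.Agent.J4H3.QB.t_NN t_E0))
    Pool.Agent.J4H3.QB.t_NN
    (t_KMU t_SRA t_PAL Pool.Agent.J4H3.QB.t_NN)

end Pool.Agent.J4H61.QB
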