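import Pool.Agent.J4H61.QB.Stm4

set_option autoImplicit false

/-! Pieces E0, PAL, KMU. -/

open Matrix MeasureTheory
open scoped ComplexOrder

namespace Pool.Agent.J4H61.QB

lemma sum_id (n : ℕ) : ∑ z ∈ Finset.range n, (z : ℝ) = (n.choose 2 : ℝ) := by
  induction n with
  | zero => simp
  | succ n ih => rw [Finset.sum_range_succ, ih, Nat.choose_succ_succ' n 1]; push_cast; simp; ring

lemma sum_sq3 (n : ℕ) : ∑ z ∈ Finset.range n, ((z : ℝ) ^ 2 - z) = 2 * (n.choose 3 : ℝ) := by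
  induction n with
  | zero => simp
  | succ n ih =>
    rw [Finset.sum_range_succ, ih, Nat.choose_succ_succ' n 2, Nat.cast_add, Nat.cast_choose_two]
    ring

lemma sum_id' (n : ℕ) : ((n : ℝ) - 2) * ∑ z ∈ Finset.range n, (z : ℝ) = 3 * (n.choose 3 : ℝ) := by
  induction n with
  | zero => simp
  | succ n ih =>
    rw [sum_id, Nat.cast_choose_two] at ih
    rw [sum_id, Nat.choose_succ_succ' n 2, Nat.cast_choose_two]
    push_cast
    rw [Nat.cast_choose_two]
    linarith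

theorem t_E0 : S_E0 := by
  intro d m hm hs
  have hf1 : ∀ z : ℕ, z < d → (z : ℝ) ^ 2 - ((d : ℝ) - 1) * z ≤ 0 := by
    intro z hz
    have h1 : (z : ℝ) + 1 ≤ d := by exact_mod_cast hz
    have h2 : (0 : ℝ) ≤ z := Nat.cast_nonneg z
    nlinarith
  have hf2 : ∀ z : ℕ, d ≤ z → 1 ≤ d → 0 < (z : ℝ) ^ 2 - ((d : ℝ) - 1) * z := by
    intro z hz hd
    have h1 : (d : ℝ) ≤ z := by exact_mod_cast hz
    have h2 : (1 : ℝ) ≤ d := by exact_mod_cast hd
    nlinarith
  have hC : ∑ z ∈ Finset.range d, ((z : ℝ) ^ 2 - ((d : ℝ) - 1) * z) = -(d.choose 3 : ℝ) := by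
    have h1 := sum_sq3 d
    have h2 := sum_id' d
    rw [Finset.sum_sub_distrib] at h1
    rw [Finset.sum_sub_distrib, ← Finset.mul_sum]
    linarith
  set S := Finset.univ.image m with hS
  have hcard : S.card = d := by
    rw [hS, Finset.card_image_of_injective _ hm]; simp
  have hsum : ∀ g : ℕ → ℝ, ∑ z ∈ S, g z = ∑ i, g (m i) := fun g =>
    Finset.sum_image (fun a _ b _ h => hm h)
  have hne : (S \ Finset.range d).Nonempty := by
    rw [Finset.sdiff_nonempty]
    intro hsub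
    have hEq : S = Finset.range d :=
      Finset.eq_of_subset_of_card_le hsub (by rw [hcard]; simp)
    have h1 := hsum (fun z => (z : ℝ))
    rw [hEq, sum_id] at h1
    have h2 : (d.choose 2 : ℝ) < ∑ i, (m i : ℝ) := by exact_mod_cast hs
    linarith
  have hd : 1 ≤ d := by
    obtain ⟨z, hz⟩ := hne
    rw [Finset.mem_sdiff, hS, Finset.mem_image] at hz
    obtain ⟨⟨i, _, _⟩, _⟩ := hz
    exact Nat.one_le_iff_ne_zero.mpr (fun h => by subst h; exact i.elim0)
  have h3 : 0 < ∑ z ∈ S \ Finset.range d, ((z : ℝ) ^ 2 - ((d : ℝ) - 1) * z) := by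
    refine Finset.sum_pos ?_ hne
    intro z hz
    rw [Finset.mem_sdiff, Finset.mem_range, not_lt] at hz
    exact hf2 z hz.2 hd
  have h4 : ∑ z ∈ Finset.range d \ S, ((z : ℝ) ^ 2 - ((d : ℝ) - 1) * z) ≤ 0 := by
    refine Finset.sum_nonpos ?_
    intro z hz
    rw [Finset.mem_sdiff, Finset.mem_range] at hz
    exact hf1 z hz.1
  have h5 := Finset.sum_sdiff_sub_sum_sdiff (s₁ := Finset.range d) (s₂ := S)
    (f := fun z : ℕ => (z : ℝ) ^ 2 - ((d : ℝ) - 1) * z)
  rw [hC, hsum] at h5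
  have h6 : ∑ i, ((m i : ℝ) ^ 2 - ((d : ℝ) - 1) * (m i : ℝ)) =
      (∑ i, (m i : ℝ) ^ 2) - ((d : ℝ) - 1) * ∑ i, (m i : ℝ) := by
    rw [Finset.sum_sub_distrib, ← Finset.mul_sum]
  rw [h6] at h5
  linarith

theorem t_PAL : S_PAL := by
  intro d μ x
  simp only [Al, Matrix.det_apply, Matrix.of_apply]
  rw [Finset.sum_comm, Finset.mul_sum]
  refine Finset.sum_congr rfl fun σ _ => ?_
  rw [← Finset.smul_sum, mul_smul_comm]
  congr 1
  have h1 : ∀ j : Fin d, ∏ i, x (σ i) ^ up μ j i = x (σ j) * ∏ i, x (σ i) ^ μ i := by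
    intro j
    rw [← Finset.mul_prod_erase Finset.univ _ (Finset.mem_univ j),
      ← Finset.mul_prod_erase Finset.univ (fun i => x (σ i) ^ μ i) (Finset.mem_univ j)]
    rw [← mul_assoc]
    congr 1
    · simp [up, pow_succ']
    · refine Finset.prod_congr rfl fun i hi => ?_
      rw [up, Function.update_of_ne (Finset.ne_of_mem_erase hi)]
  rw [Finset.sum_congr rfl fun j _ => h1 j, ← Finset.sum_mul]
  congr 1
  exact (Equiv.sum_comp σ x).symm

lemma Dl_vand {d : ℕ} (u : Fin d → ℝ) : Dl u = (Matrix.vandermonde fun i => - u i).det := by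
  rw [Matrix.det_vandermonde, Dl]
  refine Finset.prod_congr rfl fun i _ => Finset.prod_congr rfl fun j _ => ?_
  ring

lemma Dl_perm {d : ℕ} (u : Fin d → ℝ) (σ : Equiv.Perm (Fin d)) :
    Dl (fun i => u (σ i)) = ((Equiv.Perm.sign σ : ℤ) : ℝ) * Dl u := by
  rw [Dl_vand, Dl_vand]
  have := Matrix.det_permute σ (Matrix.vandermonde fun i => - u i)
  rw [← this]; rfl

lemma Al_perm {d : ℕ} (m : Fin d → ℕ) (x : Fin d → ℝ) (σ : Equiv.Perm (Fin d)) :
    Al (fun i => m (σ i)) x = ((Equiv.Perm.sign σ : ℤ) : ℝ) * Al m x := by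
  have := Matrix.det_permute' σ (Matrix.of fun i j => x i ^ m j)
  rw [Al, Al, ← this]; rfl

lemma up_perm {d : ℕ} (m : Fin d → ℕ) (σ : Equiv.Perm (Fin d)) (i : Fin d) :
    up (fun k => m (σ k)) i = fun k => up m (σ i) (σ k) := by
  funext k
  simp only [up, Function.update_apply]
  by_cases h : k = i
  · subst h; simp
  · rw [if_neg h, if_neg (fun h' => h (σ.injective h'))]

lemma sgn_sq {d : ℕ} (σ : Equiv.Perm (Fin d)) :
    ((Equiv.Perm.sign σ : ℤ) : ℝ) * ((Equiv.Perm.sign σ : ℤ) : ℝ) = 1 := by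
  rcases Int.units_eq_one_or (Equiv.Perm.sign σ) with h | h <;> simp [h]

lemma cheb {d : ℕ} (α β w : Fin d → ℝ) (hw : ∀ i j, i < j → w i ≤ w j)
    (hab : ∀ i j, i < j → α j * β i ≤ α i * β j) :
    (∑ i, β i) * (∑ i, α i * w i) ≤ (∑ i, α i) * ∑ i, β i * w i := by
  have h1 : (∑ i, α i) * (∑ i, β i * w i) - (∑ i, β i) * (∑ i, α i * w i) =
      ∑ i, ∑ j, α i * β j * (w j - w i) := by
    rw [Finset.sum_mul_sum, Finset.sum_mul_sum, Finset.sum_comm (f := fun i j => β i * (α j * w j)),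
      ← Finset.sum_sub_distrib]
    refine Finset.sum_congr rfl fun i _ => ?_
    rw [← Finset.sum_sub_distrib]
    refine Finset.sum_congr rfl fun j _ => ?_
    ring
  have h2 : ∑ i, ∑ j, α i * β j * (w j - w i) = ∑ i, ∑ j, α j * β i * (w i - w j) := by
    rw [Finset.sum_comm]
  have h3 : 0 ≤ ∑ i, ∑ j, (α i * β j - α j * β i) * (w j - w i) := by
    refine Finset.sum_nonneg fun i _ => Finset.sum_nonneg fun j _ => ?_
    rcases lt_trichotomy i j with h | h | h
    · exact mul_nonneg (by linarith [hab i j h]) (by linarith [hw i j h])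
    · subst h; simp
    · exact mul_nonneg_of_nonpos_of_nonpos (by linarith [hab j i h]) (by linarith [hw j i h])
  have h4 : ∑ i, ∑ j, (α i * β j - α j * β i) * (w j - w i) =
      (∑ i, ∑ j, α i * β j * (w j - w i)) + ∑ i, ∑ j, α j * β i * (w i - w j) := by
    rw [← Finset.sum_add_distrib]
    refine Finset.sum_congr rfl fun i _ => ?_
    rw [← Finset.sum_add_distrib]
    refine Finset.sum_congr rfl fun j _ => ?_
    ring
  rw [h4, ← h2] at h3
  linarith

lemma rl_up {d : ℕ} (m : Fin d → ℕ) (i : Fin d) :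
    rl (up m i) = Function.update (rl m) i (rl m i + 1) := by
  funext k
  simp only [rl, up, Function.update_apply]
  split_ifs <;> simp

theorem t_KMU (hSRA : S_SRA) (hPAL : S_PAL) (hNN : S_NN) : S_KMU := by
  intro d m x hx hpos
  by_cases hinj : Function.Injective m
  · -- sort
    obtain ⟨σ, hσ⟩ : ∃ σ : Equiv.Perm (Fin d), StrictAnti (fun i => m (σ i)) := by
      refine ⟨Fin.revPerm.trans (Tuple.sort m), ?_⟩
      have hmono : Monotone (m ∘ Tuple.sort m) := Tuple.monotone_sort m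
      have hst : StrictMono (m ∘ Tuple.sort m) :=
        hmono.strictMono_of_injective (hinj.comp (Tuple.sort m).injective)
      intro a b hab
      exact hst (Fin.rev_lt_rev.mpr hab)
    set μ : Fin d → ℕ := fun i => m (σ i) with hμ
    have hμa : ∀ i j : Fin d, i < j → ((1 : ℝ) / ((μ i : ℝ) + 1)) ≤ 1 / ((μ j : ℝ) + 1) := by
      intro i j hij
      have h1 : μ j < μ i := hσ hij
      have h2 : (μ j : ℝ) ≤ μ i := by exact_mod_cast h1.le
      exact one_div_le_one_div_of_le (by positivity) (by linarith)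
    have hc := cheb (fun i => Al (up μ i) x) (fun i => Dl (rl (up μ i)))
      (fun i => 1 / ((μ i : ℝ) + 1)) hμa (fun i j hij => hSRA d μ x hσ hx hpos i j hij)
    have hb : ∑ i, Dl (rl (up μ i)) = d * Dl (rl μ) := by
      rw [← (hNN d (rl μ)).1]
      exact Finset.sum_congr rfl fun i _ => by rw [rl_up]
    rw [hb, ← hPAL] at hc
    have e1 : Dl (rl μ) = ((Equiv.Perm.sign σ : ℤ) : ℝ) * Dl (rl m) := Dl_perm (rl m) σ
    have e2 : Al μ x = ((Equiv.Perm.sign σ : ℤ) : ℝ) * Al m x := Al_perm m x σ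
    have e3 : ∑ i, Al (up μ i) x * (1 / ((μ i : ℝ) + 1)) =
        ((Equiv.Perm.sign σ : ℤ) : ℝ) * ∑ i, Al (up m i) x / ((m i : ℝ) + 1) := by
      rw [Finset.mul_sum, ← Equiv.sum_comp σ (fun i => ((Equiv.Perm.sign σ : ℤ) : ℝ) *
        (Al (up m i) x / ((m i : ℝ) + 1)))]
      refine Finset.sum_congr rfl fun i _ => ?_
      rw [hμ, up_perm, Al_perm]
      ring
    have e4 : ∑ i, Dl (rl (up μ i)) * (1 / ((μ i : ℝ) + 1)) =
        ((Equiv.Perm.sign σ : ℤ) : ℝ) * ∑ i, Dl (rl (up m i)) / ((m i : ℝ) + 1) := by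
      rw [Finset.mul_sum, ← Equiv.sum_comp σ (fun i => ((Equiv.Perm.sign σ : ℤ) : ℝ) *
        (Dl (rl (up m i)) / ((m i : ℝ) + 1)))]
      refine Finset.sum_congr rfl fun i _ => ?_
      rw [hμ, up_perm]
      have : Dl (rl fun k => up m (σ i) (σ k)) = ((Equiv.Perm.sign σ : ℤ) : ℝ) *
          Dl (rl (up m (σ i))) := Dl_perm (rl (up m (σ i))) σ
      rw [this]
      ring
    rw [e1, e2, e3, e4] at hc
    have hs := sgn_sq σ
    have l1 : (d : ℝ) * (((Equiv.Perm.sign σ : ℤ) : ℝ) * Dl (rl m)) *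
        (((Equiv.Perm.sign σ : ℤ) : ℝ) * ∑ i, Al (up m i) x / ((m i : ℝ) + 1)) =
        (((Equiv.Perm.sign σ : ℤ) : ℝ) * ((Equiv.Perm.sign σ : ℤ) : ℝ)) *
          ((d * Dl (rl m)) * (∑ i, Al (up m i) x / ((m i : ℝ) + 1))) := by ring
    have l2 : (∑ i, x i) * (((Equiv.Perm.sign σ : ℤ) : ℝ) * Al m x) *
        (((Equiv.Perm.sign σ : ℤ) : ℝ) * ∑ i, Dl (rl (up m i)) / ((m i : ℝ) + 1)) =
        (((Equiv.Perm.sign σ : ℤ) : ℝ) * ((Equiv.Perm.sign σ : ℤ) : ℝ)) *
          (((∑ i, x i) * Al m x) * ∑ i, Dl (rl (up m i)) / ((m i : ℝ) + 1)) := by ring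
    rw [l1, l2, hs, one_mul, one_mul] at hc
    exact hc
  · have hD : Dl (rl m) = 0 := by
      rw [Function.Injective] at hinj
      push Not at hinj
      obtain ⟨a, b, hab, hne⟩ := hinj
      rw [Dl_vand]
      refine Matrix.det_zero_of_row_eq hne ?_
      funext k
      simp [Matrix.vandermonde, rl, hab]
    have hA : Al m x = 0 := by
      rw [Function.Injective] at hinj
      push Not at hinj
      obtain ⟨a, b, hab, hne⟩ := hinj
      exact Matrix.det_zero_of_column_eq hne (fun k => by simp [hab])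
    rw [hD, hA]; simp

end Pool.Agent.J4H61.QB
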