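import Pool.Agent.J4H61.QB.Stm4

set_option autoImplicit false

/-! The upper bound of the norm hierarchy: reduction to an inequality on `U(d)`. -/

open Matrix MeasureTheory
open scoped ComplexOrder

namespace Pool.Agent.J4H61.QB
open Pool.Agent.V11219.MomentOp

lemma pw_one (d t : ℕ) : pw t (1 : Mat d) = 1 := by
  ext i j
  simp only [pw, Matrix.of_apply, Matrix.one_apply]
  by_cases h : i = j
  · subst h; simp
  · rw [if_neg h]
    obtain ⟨s, hs⟩ := Function.ne_iff.mp h
    exact Finset.prod_eq_zero (Finset.mem_univ s) (if_neg hs)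

/-- the real linear functional of (NRM) -/
noncomputable def g0 (d t : ℕ) : MatT d t →ₗ[ℝ] ℝ where
  toFun M := (Matrix.trace (Mᴴ * Zm d t)).re
  map_add' X Y := by simp [Matrix.add_mul]
  map_smul' c X := by
    have : ((c • X)ᴴ : MatT d t) = c • Xᴴ := by
      ext i j
      simp [Matrix.conjTranspose_apply]
    rw [this]
    simp [Matrix.smul_mul, Matrix.trace_smul]

/-- composition of a real functional with a complex linear map -/
noncomputable def gc {d t : ℕ} (g : MatT d t →ₗ[ℝ] ℝ) (A : MatT d t →ₗ[ℂ] MatT d t) :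
    MatT d t →ₗ[ℝ] ℝ where
  toFun M := g (A M)
  map_add' X Y := by simp
  map_smul' c X := by
    have : A (c • X) = c • A X := by
      have h : (c • X : MatT d t) = (c : ℂ) • X := by
        ext i j; simp
      rw [h, map_smul]
      ext i j; simp
    rw [this, map_smul]; rfl

theorem red (hKS : S_KS1) (hKSP : S_KSP) (hINV : S_INV) (hNRM : S_NRM) (hAVG : S_AVG)
    (hFPW : S_FPW) (hHAAR : S_HAAR) (d t : ℕ)
    (hF : ∀ X : Mat d, X.PosSemidef → X.trace = d → F d t X ≤ F d t 1)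
    (k dE : ℕ) (ψ : Fin dE → ℂ) (hk : 1 ≤ k) (hψ : ∑ x, ‖ψ x‖ ^ 2 = 1) :
    N t k d dE ψ ≤ hsNormSq (haarOp d t) := by
  have hN : N t k d dE ψ = hsNormSq ((cOp t d dE ψ) ^ k) := rfl
  rw [hN, hHAAR]
  have hks : KS ((cOp t d dE ψ) ^ k) := hKSP d t _ (hKS t d dE ψ hψ) k
  have hinv : ∀ U : Matrix.unitaryGroup (Fin d) ℂ,
      (tensorPow t (conjU (U : Mat d))) ∘ₗ ((cOp t d dE ψ) ^ k) = (cOp t d dE ψ) ^ k := by
    intro U
    obtain ⟨k', rfl⟩ : ∃ k', k = k' + 1 := ⟨k - 1, by omega⟩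
    rw [pow_succ', Module.End.mul_eq_comp, ← LinearMap.comp_assoc, hINV]
  refine (hNRM d t _ hks hinv).trans ?_
  have key : ∀ (m : ℕ) (X : Mat d), X.PosSemidef → X.trace = d →
      gc (g0 d t) ((cOp t d dE ψ) ^ m) (pw t X) ≤ F d t 1 := by
    intro m
    induction m with
    | zero =>
      intro X hX hT
      have h1 : gc (g0 d t) ((cOp t d dE ψ) ^ 0) (pw t X) = F d t Xᴴ := by
        rw [← hFPW]; rfl
      rw [h1, hX.1.eq]
      exact hF X hX hT
    | succ m ih =>
      intro X hX hT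
      have h1 : gc (g0 d t) ((cOp t d dE ψ) ^ (m + 1)) (pw t X) =
          gc (g0 d t) ((cOp t d dE ψ) ^ m) (cOp t d dE ψ (pw t X)) := by
        rw [pow_succ]; rfl
      rw [h1]
      exact hAVG t d dE ψ hψ _ _ ih X hX hT
  have h2 := key k 1 Matrix.PosSemidef.one (by simp)
  rw [pw_one] at h2
  exact h2

end Pool.Agent.J4H61.QB
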