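import Pool.Agent.J4H61.QB.Kmu

set_option autoImplicit false

/-! Piece SRA: normalised alternants are monotone. -/

open Matrix MeasureTheory
open scoped ComplexOrder

namespace Pool.Agent.J4H61.QB

/-- exponential alternant -/
noncomputable def AA {m : ℕ} (u y : Fin m → ℝ) : ℝ :=
  Matrix.det (Matrix.of fun i j => Real.exp (u j * y i))

/-- Vandermonde determinant -/
noncomputable def VV {m : ℕ} (u : Fin m → ℝ) : ℝ := (Matrix.vandermonde u).det

/-- the box of interlacing points -/
def box {m : ℕ} (y : Fin (m + 1) → ℝ) : Set (Fin m → ℝ) :=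
  Set.univ.pi fun i => Set.Ioo (y i.castSucc) (y i.succ)

lemma VV_cons {m : ℕ} (c : ℝ) (u : Fin m → ℝ) :
    VV (Fin.cons c u : Fin (m + 1) → ℝ) = (∏ j, (u j - c)) * VV u := by
  rw [VV, VV, Matrix.det_vandermonde, Matrix.det_vandermonde, Fin.prod_univ_succ]
  congr 1
  · rw [Fin.prod_Ioi_zero]; simp
  · refine Finset.prod_congr rfl fun i _ => ?_
    rw [Fin.prod_Ioi_succ]; simp

lemma box_strict {m : ℕ} (y : Fin (m + 1) → ℝ) (s : Fin m → ℝ) (hs : s ∈ box y)
    (hy : StrictMono y) : StrictMono s := by
  intro i j hij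
  have h1 := (hs i (Set.mem_univ i)).2
  have h2 := (hs j (Set.mem_univ j)).1
  have h3 : y i.succ ≤ y j.castSucc := hy.monotone (by
    rw [Fin.le_def]; simp; exact hij)
  linarith

lemma int_exp (w a b : ℝ) (hab : a < b) :
    w * ∫ s in Set.Ioo a b, Real.exp (w * s) = Real.exp (w * b) - Real.exp (w * a) := by
  have h1 : ∫ s in Set.Ioo a b, Real.exp (w * s) = ∫ s in a..b, Real.exp (w * s) := by
    rw [intervalIntegral.integral_of_le hab.le, integral_Ioc_eq_integral_Ioo]
  rw [h1, ← intervalIntegral.integral_const_mul]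
  have h2 : ∀ s ∈ Set.uIcc a b, HasDerivAt (fun s => Real.exp (w * s)) (w * Real.exp (w * s)) s := by
    intro s _
    have := ((hasDerivAt_id s).const_mul w).exp
    simpa [mul_comm] using this
  rw [intervalIntegral.integral_eq_sub_of_hasDerivAt h2 (by
    apply Continuous.intervalIntegrable; fun_prop)]

lemma AA_cons {m : ℕ} (c : ℝ) (u : Fin m → ℝ) (y : Fin (m + 1) → ℝ) (hy : StrictMono y) :
    AA (Fin.cons c u : Fin (m + 1) → ℝ) y = Real.exp (c * ∑ i, y i) * ((∏ j, (u j - c)) *
      ∫ s in box y, Real.exp (-(c * ∑ i, s i)) * AA u s) := by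
  have e1 : AA (Fin.cons c u : Fin (m + 1) → ℝ) y = Real.exp (c * ∑ i, y i) *
      Matrix.det (Matrix.of fun i j : Fin (m + 1) =>
        Real.exp (((Fin.cons c u : Fin (m + 1) → ℝ) j - c) * y i)) := by
    rw [Finset.mul_sum, Real.exp_sum, ← Matrix.det_mul_column]
    rw [AA]
    congr 1
    ext i j
    simp only [Matrix.of_apply]
    rw [← Real.exp_add]
    ring_nf
  have e2 : Matrix.det (Matrix.of fun i j : Fin (m + 1) =>
        Real.exp (((Fin.cons c u : Fin (m + 1) → ℝ) j - c) * y i)) =
      Matrix.det (Matrix.of fun i j : Fin m =>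
        (u j - c) * ∫ s in Set.Ioo (y i.castSucc) (y i.succ), Real.exp ((u j - c) * s)) := by
    set B : Matrix (Fin (m + 1)) (Fin (m + 1)) ℝ := Matrix.of fun i j =>
      Fin.cases (motive := fun _ => ℝ) (Real.exp (((Fin.cons c u : Fin (m + 1) → ℝ) j - c) * y 0))
        (fun i' : Fin m => Real.exp (((Fin.cons c u : Fin (m + 1) → ℝ) j - c) * y i'.succ) -
          Real.exp (((Fin.cons c u : Fin (m + 1) → ℝ) j - c) * y i'.castSucc)) i with hB
    rw [Matrix.det_eq_of_forall_row_eq_smul_add_pred (B := B) (fun _ => 1) (fun j => by simp [hB])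
      (fun i j => by simp [hB])]
    rw [Matrix.det_succ_column_zero, Fin.sum_univ_succ]
    have hz : ∑ i : Fin m, (-1 : ℝ) ^ ((i.succ : Fin (m + 1)) : ℕ) * B i.succ 0 *
        (B.submatrix i.succ.succAbove Fin.succ).det = 0 := by
      refine Finset.sum_eq_zero fun i _ => ?_
      simp [hB]
    rw [hz]
    have hone : B 0 0 = 1 := by simp [hB]
    rw [hone]
    simp only [Fin.val_zero, pow_zero, one_mul, add_zero]
    congr 1
    ext i j
    simp only [Matrix.submatrix_apply, hB, Matrix.of_apply, Fin.zero_succAbove, Fin.cases_succ,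
      Fin.cons_succ]
    rw [int_exp _ _ _ (hy Fin.castSucc_lt_succ)]
  have e3 : Matrix.det (Matrix.of fun i j : Fin m =>
        (u j - c) * ∫ s in Set.Ioo (y i.castSucc) (y i.succ), Real.exp ((u j - c) * s)) =
      (∏ j, (u j - c)) * Matrix.det (Matrix.of fun i j : Fin m =>
        ∫ s in Set.Ioo (y i.castSucc) (y i.succ), Real.exp ((u j - c) * s)) := by
    rw [← Matrix.det_mul_row]; rfl
  have e4 : Matrix.det (Matrix.of fun i j : Fin m =>
        ∫ s in Set.Ioo (y i.castSucc) (y i.succ), Real.exp ((u j - c) * s)) =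
      ∫ s in box y, Real.exp (-(c * ∑ i, s i)) * AA u s := by
    have hint : ∀ (i : Fin m) (w : ℝ), Integrable (fun s => Real.exp (w * s))
        (volume.restrict (Set.Ioo (y i.castSucc) (y i.succ))) := by
      intro i w
      have : IntegrableOn (fun s : ℝ => Real.exp (w * s))
          (Set.Icc (y i.castSucc) (y i.succ)) := by
        apply ContinuousOn.integrableOn_compact isCompact_Icc; fun_prop
      exact this.mono_set Set.Ioo_subset_Icc_self
    have h1 : ∀ s : Fin m → ℝ, Real.exp (-(c * ∑ i, s i)) * AA u s =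
        ∑ σ : Equiv.Perm (Fin m), ((Equiv.Perm.sign σ : ℤ) : ℝ) *
          ∏ i, Real.exp ((u (σ i) - c) * s i) := by
      intro s
      rw [AA, ← Matrix.det_transpose, Matrix.det_apply', Finset.mul_sum]
      refine Finset.sum_congr rfl fun σ _ => ?_
      rw [mul_left_comm]
      congr 1
      simp only [Matrix.transpose_apply, Matrix.of_apply]
      rw [Finset.mul_sum, ← Finset.sum_neg_distrib, Real.exp_sum, ← Finset.prod_mul_distrib]
      refine Finset.prod_congr rfl fun i _ => ?_
      rw [← Real.exp_add]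
      ring_nf
    simp only [h1]
    have hbox : (volume : Measure (Fin m → ℝ)).restrict (box y) =
        Measure.pi fun i => (volume : Measure ℝ).restrict
          (Set.Ioo (y i.castSucc) (y i.succ)) := by
      rw [box, volume_pi, Measure.restrict_pi_pi]
    rw [hbox, integral_finsetSum]
    · rw [← Matrix.det_transpose, Matrix.det_apply']
      refine Finset.sum_congr rfl fun σ _ => ?_
      rw [integral_const_mul]
      congr 1
      exact (integral_fintype_prod_eq_prod (f := fun (i : Fin m) (s : ℝ) =>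
        Real.exp ((u (σ i) - c) * s))
        (μ := fun i => volume.restrict (Set.Ioo (y i.castSucc) (y i.succ)))).symm
    · intro σ _
      exact (Integrable.fintype_prod (fun i => hint i _)).const_mul _
  rw [e1, e2, e3, e4]

/-- domination of normalised alternants -/
def Good (m : ℕ) (u u' : Fin m → ℝ) : Prop :=
  ∀ y : Fin m → ℝ, StrictMono y → AA u' y / VV u' ≤ AA u y / VV u

lemma AA_cont {m : ℕ} (u : Fin m → ℝ) : Continuous fun s => AA u s := by
  unfold AA
  apply Continuous.matrix_det
  fun_prop

lemma Good_cons {m : ℕ} (u u' : Fin m → ℝ) (c : ℝ) (h : Good m u u') (hc : ∀ j, u j ≠ c)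
    (hc' : ∀ j, u' j ≠ c) : Good (m + 1) (Fin.cons c u) (Fin.cons c u') := by
  intro y hy
  have key : ∀ v : Fin m → ℝ, (∀ j, v j ≠ c) →
      AA (Fin.cons c v : Fin (m + 1) → ℝ) y / VV (Fin.cons c v : Fin (m + 1) → ℝ) =
      Real.exp (c * ∑ i, y i) * ∫ s in box y, Real.exp (-(c * ∑ i, s i)) * (AA v s / VV v) := by
    intro v hv
    rw [AA_cons c v y hy, VV_cons]
    have hne : (∏ j, (v j - c)) ≠ 0 := Finset.prod_ne_zero_iff.mpr fun j _ => sub_ne_zero.mpr (hv j)
    have h1 : (fun s : Fin m → ℝ => Real.exp (-(c * ∑ i, s i)) * (AA v s / VV v)) =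
        fun s => (Real.exp (-(c * ∑ i, s i)) * AA v s) * (VV v)⁻¹ := by
      funext s; ring
    rw [h1, integral_mul_const]
    field_simp
  rw [key u hc, key u' hc']
  refine mul_le_mul_of_nonneg_left ?_ (Real.exp_pos _).le
  have hI : ∀ v : Fin m → ℝ, IntegrableOn (fun s : Fin m → ℝ =>
      Real.exp (-(c * ∑ i, s i)) * (AA v s / VV v)) (box y) := by
    intro v
    have hc1 : IsCompact (Set.univ.pi fun i : Fin m => Set.Icc (y i.castSucc) (y i.succ)) :=
      isCompact_univ_pi fun i => isCompact_Icc
    have h2 : IntegrableOn (fun s : Fin m → ℝ =>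
      Real.exp (-(c * ∑ i, s i)) * (AA v s / VV v))
        (Set.univ.pi fun i : Fin m => Set.Icc (y i.castSucc) (y i.succ)) := by
      apply ContinuousOn.integrableOn_compact hc1
      apply Continuous.continuousOn
      have := AA_cont v
      fun_prop
    exact h2.mono_set (Set.pi_mono fun i _ => Set.Ioo_subset_Icc_self)
  refine setIntegral_mono_on (hI u') (hI u) ?_ ?_
  · exact MeasurableSet.univ_pi fun i => measurableSet_Ioo
  · intro s hs
    exact mul_le_mul_of_nonneg_left (h s (box_strict y s hs hy)) (Real.exp_pos _).le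

lemma AA_perm {m : ℕ} (u y : Fin m → ℝ) (σ : Equiv.Perm (Fin m)) :
    AA (fun i => u (σ i)) y = ((Equiv.Perm.sign σ : ℤ) : ℝ) * AA u y := by
  have := Matrix.det_permute' σ (Matrix.of fun i j => Real.exp (u j * y i))
  rw [AA, AA, ← this]; rfl

lemma VV_perm {m : ℕ} (u : Fin m → ℝ) (σ : Equiv.Perm (Fin m)) :
    VV (fun i => u (σ i)) = ((Equiv.Perm.sign σ : ℤ) : ℝ) * VV u := by
  have := Matrix.det_permute σ (Matrix.vandermonde u)
  rw [VV, VV, ← this]; rfl

lemma ratio_perm {m : ℕ} (u y : Fin m → ℝ) (σ : Equiv.Perm (Fin m)) :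
    AA (fun i => u (σ i)) y / VV (fun i => u (σ i)) = AA u y / VV u := by
  rw [AA_perm, VV_perm, mul_div_mul_left]
  intro h
  have := sgn_sq σ
  rw [h] at this
  simp at this

lemma Good_perm {m : ℕ} (u u' : Fin m → ℝ) (σ : Equiv.Perm (Fin m))
    (h : Good m (fun i => u (σ i)) (fun i => u' (σ i))) : Good m u u' := by
  intro y hy
  have := h y hy
  rwa [ratio_perm, ratio_perm] at this

/-- `sinh z / z`-type function -/
lemma sh_mono (a b L : ℝ) (ha : 0 < a) (hab : a ≤ b) (hL : 0 < L) :
    (Real.exp (a * L) - Real.exp (-(a * L))) / a ≤ (Real.exp (b * L) - Real.exp (-(b * L))) / b := by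
  have hb : 0 < b := lt_of_lt_of_le ha hab
  have h1 : ∀ w : ℝ, 0 < w → (Real.exp (w * L) - Real.exp (-(w * L))) / w =
      ∫ s in (-L)..L, Real.exp (w * s) := by
    intro w hw
    have h2 : ∀ s ∈ Set.uIcc (-L) L, HasDerivAt (fun s => Real.exp (w * s) / w)
        (Real.exp (w * s)) s := by
      intro s _
      have := (((hasDerivAt_id s).const_mul w).exp).div_const w
      have e : Real.exp (w * id s) * (w * 1) / w = Real.exp (w * s) := by
        simp only [id]; field_simp
      rw [← e]; exact this
    rw [intervalIntegral.integral_eq_sub_of_hasDerivAt h2 (by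
      apply Continuous.intervalIntegrable; fun_prop)]
    rw [← sub_div]
    ring_nf
  have h3 : ∀ w : ℝ, (∫ s in (-L)..L, Real.exp (w * s)) = ∫ s in (-L)..L, Real.cosh (w * s) := by
    intro w
    have h4 : (∫ s in (-L)..L, Real.exp (w * s)) = ∫ s in (-L)..L, Real.exp (-(w * s)) := by
      have := intervalIntegral.integral_comp_neg (a := -L) (b := L) (fun s => Real.exp (w * s))
      rw [neg_neg] at this
      rw [← this]
      congr 1
      funext s; ring_nf
    have h5 : ∀ s : ℝ, Real.cosh (w * s) = (Real.exp (w * s) + Real.exp (-(w * s))) / 2 :=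
      fun s => Real.cosh_eq _
    simp only [h5]
    rw [intervalIntegral.integral_div, intervalIntegral.integral_add, ← h4]
    · ring
    · apply Continuous.intervalIntegrable; fun_prop
    · apply Continuous.intervalIntegrable; fun_prop
  rw [h1 a ha, h1 b hb, h3, h3]
  apply intervalIntegral.integral_mono_on (by linarith)
  · apply Continuous.intervalIntegrable; fun_prop
  · apply Continuous.intervalIntegrable; fun_prop
  · intro s _
    rw [Real.cosh_le_cosh, abs_mul, abs_mul, abs_of_pos ha, abs_of_pos hb]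
    exact mul_le_mul_of_nonneg_right hab (abs_nonneg s)

lemma Good_two (p q p' q' : ℝ) (hs : p + q = p' + q') (h1 : p' < q') (h2 : q' - p' ≤ q - p) :
    Good 2 ![p, q] ![p', q'] := by
  intro y hy
  have hL : 0 < (y 1 - y 0) / 2 := by have := hy (show (0 : Fin 2) < 1 by decide); linarith
  have hA : ∀ a b : ℝ, a < b → AA ![a, b] y / VV ![a, b] =
      Real.exp ((a + b) / 2 * (y 0 + y 1)) *
        ((Real.exp ((b - a) * ((y 1 - y 0) / 2)) - Real.exp (-((b - a) * ((y 1 - y 0) / 2)))) /
          (b - a)) := by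
    intro a b _
    rw [AA, VV, Matrix.det_fin_two, Matrix.det_fin_two]
    simp only [Matrix.of_apply, Matrix.vandermonde_apply, Matrix.cons_val_zero,
      Matrix.cons_val_one, Fin.val_zero, Fin.val_one, pow_zero, pow_one, one_mul, mul_one]
    rw [← mul_div_assoc, mul_sub, ← Real.exp_add, ← Real.exp_add, ← Real.exp_add, ← Real.exp_add]
    congr 2 <;> ring_nf
  rw [hA p' q' h1, hA p q (by linarith), hs]
  exact mul_le_mul_of_nonneg_left (sh_mono _ _ _ (by linarith) h2 hL) (Real.exp_pos _).le

theorem good_main (d : ℕ) : ∀ (u u' : Fin d → ℝ) (i j : Fin d), i ≠ j →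
    Function.Injective u → Function.Injective u' → (∀ k, k ≠ i → k ≠ j → u k = u' k) →
    u j + u i = u' j + u' i → u' j < u' i → u' i - u' j ≤ u i - u j → Good d u u' := by
  induction d with
  | zero => intro u u' i; exact i.elim0
  | succ d ih =>
    intro u u' i j hij hu hu' hag hsum hlt hle
    by_cases hk : ∃ k, k ≠ i ∧ k ≠ j
    · obtain ⟨k, hki, hkj⟩ := hk
      set σ : Equiv.Perm (Fin (d + 1)) := Equiv.swap 0 k with hσ
      apply Good_perm _ _ σ
      have hcons : ∀ v : Fin (d + 1) → ℝ, (fun l => v (σ l)) =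
          (Fin.cons (v k) (fun l : Fin d => v (σ l.succ)) : Fin (d + 1) → ℝ) := by
        intro v
        funext l
        refine Fin.cases ?_ (fun l => ?_) l
        · simp [hσ]
        · simp
      have hss : ∀ a, σ (σ a) = a := fun a => by rw [hσ]; exact Equiv.swap_apply_self 0 k a
      have hpre : ∀ a, a ≠ k → ∃ a' : Fin d, σ (Fin.succ a') = a := by
        intro a ha
        have h0 : σ a ≠ 0 := by
          intro h
          apply ha
          have := hss a
          rw [h, hσ, Equiv.swap_apply_left] at this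
          exact this.symm
        obtain ⟨a', h⟩ := Fin.exists_succ_eq.mpr h0
        exact ⟨a', by rw [h, hss]⟩
      obtain ⟨i', hi'⟩ := hpre i hki.symm
      obtain ⟨j', hj'⟩ := hpre j hkj.symm
      have hne : ∀ l : Fin d, σ l.succ ≠ k := by
        intro l h
        have := hss l.succ
        rw [h, hσ, Equiv.swap_apply_right] at this
        exact absurd this.symm (Fin.succ_ne_zero l)
      rw [hcons u, hcons u', hag k hki hkj]
      apply Good_cons
      · apply ih _ _ i' j'
        · intro h; apply hij; rw [← hi', ← hj', h]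
        · intro a b hab
          exact Fin.succ_injective _ (σ.injective (hu hab))
        · intro a b hab
          exact Fin.succ_injective _ (σ.injective (hu' hab))
        · intro a ha hb
          apply hag
          · intro h; apply ha; rw [← hi'] at h; exact Fin.succ_injective _ (σ.injective h)
          · intro h; apply hb; rw [← hj'] at h; exact Fin.succ_injective _ (σ.injective h)
        · simp only [hi', hj']; exact hsum
        · simp only [hi', hj']; exact hlt
        · simp only [hi', hj']; exact hle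
      · intro l h
        rw [← hag k hki hkj] at h
        exact hne l (hu h)
      · intro l h
        exact hne l (hu' h)
    · push Not at hk
      have hd : d = 1 := by
        have h1 : (Finset.univ : Finset (Fin (d + 1))) = {i, j} := by
          ext k
          simp only [Finset.mem_univ, Finset.mem_insert, Finset.mem_singleton, true_iff]
          by_cases h : k = i
          · exact Or.inl h
          · exact Or.inr (hk k h)
        have h2 := congrArg Finset.card h1
        rw [Finset.card_pair hij] at h2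
        simpa using h2
      subst hd
      have key : ∀ a b : Fin 2, a ≠ b → (a = 1 ∧ b = 0) ∨ (a = 0 ∧ b = 1) := by decide
      rcases key i j hij with ⟨rfl, rfl⟩ | ⟨rfl, rfl⟩
      · have e : ∀ v : Fin 2 → ℝ, v = ![v 0, v 1] := by
          intro v; funext l; fin_cases l <;> rfl
        rw [e u, e u']
        exact Good_two _ _ _ _ hsum hlt hle
      · apply Good_perm _ _ (Equiv.swap 0 1)
        have e : ∀ v : Fin 2 → ℝ, (fun l => v (Equiv.swap 0 1 l)) = ![v 1, v 0] := by
          intro v; funext l; fin_cases l <;> simp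
        rw [e u, e u']
        exact Good_two _ _ _ _ hsum hlt hle

lemma Dl_VV {d : ℕ} (u : Fin d → ℝ) : Dl u = (∏ j : Fin d, (-1 : ℝ) ^ (j : ℕ)) * VV u := by
  rw [Dl_vand, VV, ← Matrix.det_mul_row]
  congr 1
  ext i j
  simp only [Matrix.vandermonde_apply, Matrix.of_apply]
  rw [← mul_pow]; ring

lemma Dl_pos {d : ℕ} (u : Fin d → ℝ) (h : StrictAnti u) : 0 < Dl u := by
  refine Finset.prod_pos fun i _ => Finset.prod_pos fun j hj => ?_
  have := h (Finset.mem_Ioi.mp hj)
  linarith

lemma Dl_inj {d : ℕ} (u : Fin d → ℝ) (h : ¬ Function.Injective u) : Dl u = 0 := by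
  rw [Function.Injective] at h
  push Not at h
  obtain ⟨a, b, hab, hne⟩ := h
  rw [Dl_vand]
  refine Matrix.det_zero_of_row_eq hne ?_
  funext k
  simp [Matrix.vandermonde, hab]

lemma Al_inj {d : ℕ} (m : Fin d → ℕ) (x : Fin d → ℝ) (h : ¬ Function.Injective (rl m)) :
    Al m x = 0 := by
  rw [Function.Injective] at h
  push Not at h
  obtain ⟨a, b, hab, hne⟩ := h
  have hab' : m a = m b := by exact_mod_cast (show (m a : ℝ) = m b from hab)
  exact Matrix.det_zero_of_column_eq hne (fun k => by simp [hab'])

lemma Al_AA {d : ℕ} (m : Fin d → ℕ) (x : Fin d → ℝ) (hx : ∀ i, 0 < x i) :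
    Al m x = ((Equiv.Perm.sign (Fin.revPerm : Equiv.Perm (Fin d)) : ℤ) : ℝ) *
      AA (rl m) (fun i => Real.log (x (Fin.rev i))) := by
  have h1 : AA (rl m) (fun i => Real.log (x (Fin.rev i))) =
      ((Equiv.Perm.sign (Fin.revPerm : Equiv.Perm (Fin d)) : ℤ) : ℝ) * Al m x := by
    have := Matrix.det_permute (Fin.revPerm : Equiv.Perm (Fin d))
      (Matrix.of fun i j => x i ^ m j)
    rw [Al, ← this, AA]
    congr 1
    ext i j
    simp only [Matrix.of_apply, Matrix.submatrix_apply, rl, id]
    rw [mul_comm, Real.exp_mul, Real.exp_log (hx _), Real.rpow_natCast]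
    rfl
  rw [h1, ← mul_assoc, sgn_sq, one_mul]

theorem t_SRA : S_SRA := by
  intro d μ x hμ hx hpos i j hij
  set s : ℝ := ((Equiv.Perm.sign (Fin.revPerm : Equiv.Perm (Fin d)) : ℤ) : ℝ) with hs
  have hss : s * s = 1 := sgn_sq _
  set ε : ℝ := ∏ j : Fin d, (-1 : ℝ) ^ (j : ℕ) with hε
  by_cases hi : Function.Injective (rl (up μ i))
  swap
  · rw [Dl_inj _ hi, Al_inj _ _ hi]; simp
  by_cases hj : Function.Injective (rl (up μ j))
  swap
  · rw [Dl_inj _ hj, Al_inj _ _ hj]; simp
  have hanti : ∀ k : Fin d, Function.Injective (rl (up μ k)) → StrictAnti (rl (up μ k)) := by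
    intro k hk a b hab
    have h1 : μ b < μ a := hμ hab
    have h2 : up μ k b ≤ μ b + 1 := by
      unfold up; rw [Function.update_apply]; split_ifs with h
      · rw [h]
      · omega
    have h3 : μ a ≤ up μ k a := by
      unfold up; rw [Function.update_apply]; split_ifs with h
      · rw [h]; omega
      · omega
    have h4 : rl (up μ k) b ≤ rl (up μ k) a := by
      have h5 : up μ k b ≤ up μ k a := by omega
      have h6 : ((up μ k b : ℕ) : ℝ) ≤ ((up μ k a : ℕ) : ℝ) := by exact_mod_cast h5
      exact h6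
    exact lt_of_le_of_ne h4 (fun h => hab.ne' (hk h))
  have hDi := Dl_pos _ (hanti i hi)
  have hDj := Dl_pos _ (hanti j hj)
  -- the sign
  have hsε : Dl (rl (up μ i)) = s * VV (rl (up μ i)) := by
    have h1 : VV (fun k => rl (up μ i) (Fin.revPerm k)) = s * VV (rl (up μ i)) := VV_perm _ _
    have h2 : 0 < VV (fun k => rl (up μ i) (Fin.revPerm k)) := by
      rw [VV, Matrix.det_vandermonde]
      refine Finset.prod_pos fun a _ => Finset.prod_pos fun b hb => ?_
      have := hanti i hi (Fin.rev_lt_rev.mpr (Finset.mem_Ioi.mp hb))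
      simp only [Fin.revPerm_apply]
      linarith
    have h3 := Dl_VV (rl (up μ i))
    rw [← hε] at h3
    have hεε : ε * ε = 1 := by
      rw [hε, ← Finset.prod_mul_distrib]
      refine Finset.prod_eq_one fun a _ => ?_
      rw [← mul_pow]; simp
    rw [h1] at h2
    rw [h3] at hDi
    have h4 : ε * s = 1 := by
      have h5 : (ε * s) * (ε * s) = 1 := by
        have : (ε * s) * (ε * s) = (ε * ε) * (s * s) := by ring
        rw [this, hεε, hss, one_mul]
      have h6 : 0 < (ε * s) * (VV (rl (up μ i)) * VV (rl (up μ i))) := by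
        have := mul_pos hDi h2
        have e : ε * VV (rl (up μ i)) * (s * VV (rl (up μ i))) =
          (ε * s) * (VV (rl (up μ i)) * VV (rl (up μ i))) := by ring
        rwa [e] at this
      have h7 : 0 < ε * s := by
        by_contra h
        push Not at h
        have := mul_nonneg (neg_nonneg.mpr h) (mul_self_nonneg (VV (rl (up μ i))))
        linarith
      nlinarith
    have h8 : ε = s := by
      have : ε * (s * s) = s := by rw [← mul_assoc, h4, one_mul]
      rwa [hss, mul_one] at this
    rw [h3, h8]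
  have hεs : ε = s := by
    have h3 := Dl_VV (rl (up μ i))
    rw [← hε, hsε] at h3
    have hne : VV (rl (up μ i)) ≠ 0 := by
      intro h; rw [hsε, h] at hDi; simp at hDi
    exact (mul_right_cancel₀ hne h3).symm
  have hsj : Dl (rl (up μ j)) = s * VV (rl (up μ j)) := by
    rw [Dl_VV, ← hε, hεs]
  set y : Fin d → ℝ := fun k => Real.log (x (Fin.rev k)) with hy
  have hym : StrictMono y := by
    intro a b hab
    exact Real.log_lt_log (hpos _) (hx (Fin.rev_lt_rev.mpr hab))
  have hg : Good d (rl (up μ i)) (rl (up μ j)) := by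
    have hm : μ j < μ i := hμ hij
    have ui : rl (up μ i) i = (μ i : ℝ) + 1 := by simp [rl, up]
    have uj : rl (up μ i) j = (μ j : ℝ) := by
      simp [rl, up, Function.update_of_ne hij.ne']
    have vi : rl (up μ j) i = (μ i : ℝ) := by
      simp [rl, up, Function.update_of_ne hij.ne]
    have vj : rl (up μ j) j = (μ j : ℝ) + 1 := by simp [rl, up]
    apply good_main d _ _ i j hij.ne hi hj
    · intro k hki hkj
      simp [rl, up, Function.update_of_ne hki, Function.update_of_ne hkj]
    · rw [ui, uj, vi, vj]; ring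
    · rcases lt_or_eq_of_le (show rl (up μ j) j ≤ rl (up μ j) i by
        rw [vi, vj]; exact_mod_cast hm) with h | h
      · exact h
      · exact absurd (hj h) hij.ne'
    · rw [ui, uj, vi, vj]; linarith
  have h1 := hg y hym
  have hVi : VV (rl (up μ i)) * VV (rl (up μ j)) = Dl (rl (up μ i)) * Dl (rl (up μ j)) := by
    rw [hsε, hsj]
    have : s * VV (rl (up μ i)) * (s * VV (rl (up μ j))) =
      (s * s) * (VV (rl (up μ i)) * VV (rl (up μ j))) := by ring
    rw [this, hss, one_mul]
  have hpp : 0 < VV (rl (up μ i)) * VV (rl (up μ j)) := by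
    rw [hVi]; exact mul_pos hDi hDj
  have hni : VV (rl (up μ i)) ≠ 0 := left_ne_zero_of_mul hpp.ne'
  have hnj : VV (rl (up μ j)) ≠ 0 := right_ne_zero_of_mul hpp.ne'
  have h2 := mul_le_mul_of_nonneg_right h1 hpp.le
  have e1 : AA (rl (up μ j)) y / VV (rl (up μ j)) * (VV (rl (up μ i)) * VV (rl (up μ j))) =
      AA (rl (up μ j)) y * VV (rl (up μ i)) := by field_simp
  have e2 : AA (rl (up μ i)) y / VV (rl (up μ i)) * (VV (rl (up μ i)) * VV (rl (up μ j))) =
      AA (rl (up μ i)) y * VV (rl (up μ j)) := by field_simp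
  rw [e1, e2] at h2
  rw [Al_AA _ _ hpos, Al_AA _ _ hpos, ← hs, hsε, hsj]
  have e3 : s * AA (rl (up μ j)) y * (s * VV (rl (up μ i))) =
      (s * s) * (AA (rl (up μ j)) y * VV (rl (up μ i))) := by ring
  have e4 : s * AA (rl (up μ i)) y * (s * VV (rl (up μ j))) =
      (s * s) * (AA (rl (up μ i)) y * VV (rl (up μ j))) := by ring
  rw [e3, e4, hss, one_mul, one_mul]
  exact h2

end Pool.Agent.J4H61.QB
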