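import Mathlib
import Pool.Agent.V11219.MomentOp

set_option autoImplicit false

/-! Statements for the upper bound of the norm hierarchy of random quantum channels. -/

open Matrix MeasureTheory
open scoped ComplexOrder

namespace Pool.Agent.J4H61.QB
open Pool.Agent.V11219.MomentOp

/-- `X ^ (⊗ t)` -/
noncomputable def pw {d : ℕ} (t : ℕ) (X : Mat d) : MatT d t := Matrix.of fun i j => ∏ s, X (i s) (j s)

/-- the unitary channel `X ↦ U X U†` -/
noncomputable def conjU {d : ℕ} (U : Mat d) : Mat d →ₗ[ℂ] Mat d where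
  toFun X := U * X * Uᴴ
  map_add' X Y := by rw [Matrix.mul_add, Matrix.add_mul]
  map_smul' c X := by simp

/-- the Haar moment operator -/
noncomputable def haarOp (d t : ℕ) : MatT d t →ₗ[ℂ] MatT d t :=
  momentOp (haarU (Fin d)) t (fun U => conjU (U : Mat d))

/-- the `cHaar` moment operator -/
noncomputable def cOp (t d dE : ℕ) (ψ : Fin dE → ℂ) : MatT d t →ₗ[ℂ] MatT d t :=
  momentOp (haarU (Fin d × Fin dE)) t
    (fun V => dilated (d := d) ψ (V : Matrix (Fin d × Fin dE) (Fin d × Fin dE) ℂ))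

/-- the Hilbert-Schmidt adjoint -/
noncomputable def adj {d t : ℕ} (A : MatT d t →ₗ[ℂ] MatT d t) : MatT d t →ₗ[ℂ] MatT d t where
  toFun X := Matrix.of fun i j => ∑ k, ∑ l, X k l * star (A (Matrix.single i j 1) k l)
  map_add' X Y := by
    ext i j
    simp [add_mul, Finset.sum_add_distrib]
  map_smul' c X := by
    ext i j
    simp [Finset.mul_sum, mul_assoc]

/-- the adjoint is positive and satisfies the Kadison-Schwarz inequality -/
def KS {d t : ℕ} (A : MatT d t →ₗ[ℂ] MatT d t) : Prop :=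
  (∀ X : MatT d t, X.PosSemidef → (adj A X).PosSemidef) ∧
  ∀ X : MatT d t, (adj A (Xᴴ * X) - (adj A X)ᴴ * adj A X).PosSemidef

/-- `∫ (Tr U)^t (Tr (X U†))^t dU` (real part) -/
noncomputable def F (d t : ℕ) (X : Mat d) : ℝ :=
  (∫ U : Matrix.unitaryGroup (Fin d) ℂ, (Matrix.trace (U : Mat d)) ^ t *
    (Matrix.trace (X * (U : Mat d)ᴴ)) ^ t ∂(haarU (Fin d))).re

/-- `∫ (Tr U)^t U† ^ (⊗ t) dU` -/
noncomputable def Zm (d t : ℕ) : MatT d t := Matrix.of fun i j =>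
  ∫ U : Matrix.unitaryGroup (Fin d) ℂ, (Matrix.trace (U : Mat d)) ^ t * pw t (U : Mat d)ᴴ i j ∂(haarU (Fin d))

/-- (Q1) the `cHaar` moment operator satisfies the Kadison-Schwarz inequality -/
def S_KS1 : Prop := ∀ (t d dE : ℕ) (ψ : Fin dE → ℂ), ∑ x, ‖ψ x‖ ^ 2 = 1 → KS (cOp t d dE ψ)

/-- (Q2) and so do its powers -/
def S_KSP : Prop := ∀ (d t : ℕ) (A : MatT d t →ₗ[ℂ] MatT d t), KS A → ∀ k : ℕ, KS (A ^ k)

/-- (Q3) invariance of the output -/
def S_INV : Prop := ∀ (t d dE : ℕ) (ψ : Fin dE → ℂ) (U : Matrix.unitaryGroup (Fin d) ℂ),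
  (tensorPow t (conjU (U : Mat d))) ∘ₗ (cOp t d dE ψ) = cOp t d dE ψ

/-- (Q4) the norm of an operator with the Kadison-Schwarz inequality and invariant output -/
def S_NRM : Prop := ∀ (d t : ℕ) (A : MatT d t →ₗ[ℂ] MatT d t), KS A →
  (∀ U : Matrix.unitaryGroup (Fin d) ℂ, (tensorPow t (conjU (U : Mat d))) ∘ₗ A = A) →
  hsNormSq A ≤ (Matrix.trace ((A 1)ᴴ * Zm d t)).re

/-- (Q5) the value of a linear functional on the image of a product -/
def S_AVG : Prop := ∀ (t d dE : ℕ) (ψ : Fin dE → ℂ), ∑ x, ‖ψ x‖ ^ 2 = 1 →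
  ∀ (g : MatT d t →ₗ[ℝ] ℝ) (h : ℝ), (∀ X : Mat d, X.PosSemidef → X.trace = d → g (pw t X) ≤ h) →
    ∀ X : Mat d, X.PosSemidef → X.trace = d → g (cOp t d dE ψ (pw t X)) ≤ h

/-- (Q6) the functional of (Q4) on products -/
def S_FPW : Prop := ∀ (d t : ℕ) (X : Mat d), (Matrix.trace ((pw t X)ᴴ * Zm d t)).re = F d t Xᴴ

/-- (Q7) the value for the Haar ensemble -/
def S_HAAR : Prop := ∀ (d t : ℕ), hsNormSq (haarOp d t) = F d t 1

/-- (Q8) qubits: the maximum is attained at the identity -/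
def S_QUB : Prop := ∀ (t : ℕ) (X : Mat 2), X.PosSemidef → X.trace = 2 → F 2 t X ≤ F 2 t 1

end Pool.Agent.J4H61.QB
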