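import Pool.Agent.J4H61.QB.Stm

set_option autoImplicit false

/-! Finer statements for the upper bound of the norm hierarchy of random quantum channels. -/

open Matrix MeasureTheory
open scoped ComplexOrder

namespace Pool.Agent.J4H61.QB
open Pool.Agent.V11219.MomentOp

/-- `∫ U^(⊗ t) E_kl U†^(⊗ t) dU` -/
noncomputable def Ebar (d t : ℕ) (k l : Fin t → Fin d) : MatT d t := Matrix.of fun a b =>
  ∫ U : Matrix.unitaryGroup (Fin d) ℂ, pw t (U : Mat d) a k * star (pw t (U : Mat d) b l)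
    ∂(haarU (Fin d))

/-- (HSN) the norm of the adjoint -/
def S_HSN : Prop := ∀ (d t : ℕ) (A : MatT d t →ₗ[ℂ] MatT d t),
  hsNormSq A = ∑ k, ∑ l, (Matrix.trace ((adj A (Matrix.single k l 1))ᴴ *
    adj A (Matrix.single k l 1))).re

/-- (AE) invariance of the adjoint -/
def S_AE : Prop := ∀ (d t : ℕ) (A : MatT d t →ₗ[ℂ] MatT d t),
  (∀ U : Matrix.unitaryGroup (Fin d) ℂ, (tensorPow t (conjU (U : Mat d))) ∘ₗ A = A) →
  ∀ k l : Fin t → Fin d, adj A (Matrix.single k l 1) = adj A (Ebar d t k l)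

/-- (KST) the Kadison-Schwarz inequality and the trace -/
def S_KST : Prop := ∀ (d t : ℕ) (A : MatT d t →ₗ[ℂ] MatT d t), KS A → ∀ Y : MatT d t,
  (Matrix.trace ((adj A Y)ᴴ * adj A Y)).re ≤ (Matrix.trace ((A 1)ᴴ * (Yᴴ * Y))).re

/-- (EZ) the sum of the squares -/
def S_EZ : Prop := ∀ (d t : ℕ), ∑ k, ∑ l, (Ebar d t k l)ᴴ * Ebar d t k l = Zm d t

/-- (DIAG) qubits: diagonalisation -/
def S_DIAG : Prop := ∀ (t : ℕ) (X : Mat 2), X.PosSemidef → X.trace = 2 →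
  ∃ x y : ℝ, 0 ≤ x ∧ 0 ≤ y ∧ x + y = 2 ∧
    F 2 t X = F 2 t (Matrix.diagonal ![(x : ℂ), (y : ℂ)])

/-- (TOR) qubits: the value at a diagonal matrix -/
def S_TOR : Prop := ∀ (t : ℕ) (x y : ℝ), F 2 t (Matrix.diagonal ![(x : ℂ), (y : ℂ)]) =
  (∫ U : Matrix.unitaryGroup (Fin 2) ℂ, ‖(U : Mat 2) 0 0‖ ^ (2 * t) ∂(haarU (Fin 2))) *
    ∑ k ∈ Finset.range (t + 1), (t.choose k : ℝ) ^ 2 * x ^ k * y ^ (t - k)

/-- (NUM) the inequality between numbers -/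
def S_NUM : Prop := ∀ (t : ℕ) (x y : ℝ), 0 ≤ x → 0 ≤ y → x + y = 2 →
  ∑ k ∈ Finset.range (t + 1), (t.choose k : ℝ) ^ 2 * x ^ k * y ^ (t - k) ≤
    ∑ k ∈ Finset.range (t + 1), (t.choose k : ℝ) ^ 2

/-- (PWC) the image of a product under the moment operator is the mean of products -/
def S_PWC : Prop := ∀ (t d dE : ℕ) (ψ : Fin dE → ℂ) (X : Mat d) (k l : Fin t → Fin d),
  cOp t d dE ψ (pw t X) k l =
    ∫ V : Matrix.unitaryGroup (Fin d × Fin dE) ℂ,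
      pw t (dilated ψ (V : Matrix (Fin d × Fin dE) (Fin d × Fin dE) ℂ) X) k l
        ∂(haarU (Fin d × Fin dE))

/-- (DPS) channels are positive and preserve the trace -/
def S_DPS : Prop := ∀ (d dE : ℕ) (ψ : Fin dE → ℂ), ∑ x, ‖ψ x‖ ^ 2 = 1 →
  ∀ (V : Matrix.unitaryGroup (Fin d × Fin dE) ℂ) (X : Mat d), X.PosSemidef →
    (dilated ψ (V : Matrix (Fin d × Fin dE) (Fin d × Fin dE) ℂ) X).PosSemidef ∧
    (dilated ψ (V : Matrix (Fin d × Fin dE) (Fin d × Fin dE) ℂ) X).trace = X.trace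

end Pool.Agent.J4H61.QB
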