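import Pool.Agent.J4H61.QB.Stm4

set_option autoImplicit false

/-! The lower bound of the norm hierarchy. -/

open Matrix MeasureTheory
open scoped ComplexOrder

namespace Pool.Agent.J4H61.QB
open Pool.Agent.V11219.MomentOp

/-- the completely depolarizing channel `X ↦ Tr(X) 1/d` -/
noncomputable def depol (d : ℕ) : Mat d →ₗ[ℂ] Mat d where
  toFun X := (X.trace / d) • 1
  map_add' X Y := by rw [Matrix.trace_add, add_div, add_smul]
  map_smul' c X := by simp [mul_div_assoc, smul_smul]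

/-- (LOW) the lower bound -/
def S_LOW : Prop := ∀ (t k d dE : ℕ) (ψ : Fin dE → ℂ), 1 ≤ d → ∑ x, ‖ψ x‖ ^ 2 = 1 →
  hsNormSq (tensorPow t (depol d)) = 1 ∧ 1 ≤ N t k d dE ψ

end Pool.Agent.J4H61.QB
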